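import Pool.Agent.Work.MP_b0c12c_nt.Interface2

/-!
# Block S3b: the Gaussian weighted sum by a contour shift
-/

set_option autoImplicit false

open Complex MeasureTheory Filter Topology Finset
open ArithmeticFunction (vonMangoldt_nonneg vonMangoldt_le_log)
open scoped ArithmeticFunction.vonMangoldt

namespace Pool.Agent.Work.MP_b0c12c_nt_helper6

open Pool.Agent.Work.MP_b0c12c_nt.Itf2 (ZF gaussSum' LogDeriv GaussBound)

/-! ### The Gaussian formula -/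

/-- The vertical line. -/
noncomputable def ln (c t : ℝ) : ℂ := c + t * I

@[simp] theorem ln_re (c t : ℝ) : (ln c t).re = c := by simp [ln]
@[simp] theorem ln_im (c t : ℝ) : (ln c t).im = t := by simp [ln]

theorem exp_ln_eq (τ c v t : ℝ) : cexp ((τ : ℂ) ^ 2 * (ln c t) ^ 2 / 2 + (ln c t) * v) =
    cexp (-((τ : ℂ) ^ 2 / 2) * (t : ℂ) ^ 2 + (I * ((τ : ℂ) ^ 2 * c + v)) * t +
      ((τ : ℂ) ^ 2 * c ^ 2 / 2 + c * v)) := by
  congr 1
  unfold ln
  have h : I ^ 2 = -1 := I_sq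
  linear_combination ((τ : ℂ) ^ 2 * (t : ℂ) ^ 2 / 2) * h

theorem integrable_gauss {τ : ℝ} (hτ : 0 < τ) (c v : ℝ) :
    Integrable (fun t : ℝ => cexp ((τ : ℂ) ^ 2 * (ln c t) ^ 2 / 2 + (ln c t) * v)) := by
  simp_rw [exp_ln_eq]
  refine integrable_cexp_quadratic (b := (τ : ℂ) ^ 2 / 2) ?_ _ _
  rw [← ofReal_pow, show ((2 : ℂ)) = ((2 : ℝ) : ℂ) by norm_num, ← ofReal_div, ofReal_re]
  positivity

theorem gauss_formula {τ : ℝ} (hτ : 0 < τ) (c v : ℝ) :
    ∫ t : ℝ, cexp ((τ : ℂ) ^ 2 * (ln c t) ^ 2 / 2 + (ln c t) * v) =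
      ((Real.sqrt (2 * Real.pi) / τ * Real.exp (-v ^ 2 / (2 * τ ^ 2)) : ℝ) : ℂ) := by
  simp_rw [exp_ln_eq]
  have hb : (-((τ : ℂ) ^ 2 / 2)).re < 0 := by
    rw [← ofReal_pow, show ((2 : ℂ)) = ((2 : ℝ) : ℂ) by norm_num, ← ofReal_div, neg_re, ofReal_re]
    have : 0 < τ ^ 2 / 2 := by positivity
    linarith
  rw [integral_cexp_quadratic hb]
  have h1 : (Real.pi : ℂ) / -(-((τ : ℂ) ^ 2 / 2)) = (((Real.sqrt (2 * Real.pi) / τ) ^ 2 : ℝ) : ℂ) := by
    rw [div_pow, Real.sq_sqrt (by positivity)]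
    push_cast
    rw [neg_neg]
    field_simp
  have h2 : ((((Real.sqrt (2 * Real.pi) / τ) ^ 2 : ℝ) : ℂ)) ^ (1 / 2 : ℂ) =
      ((Real.sqrt (2 * Real.pi) / τ : ℝ) : ℂ) := by
    rw [show (1 / 2 : ℂ) = ((1 / 2 : ℝ) : ℂ) by norm_num, ← ofReal_cpow (by positivity),
      ← Real.sqrt_eq_rpow, Real.sqrt_sq (by positivity)]
  rw [h1, h2]
  push_cast
  congr 2
  have hτ' : (τ : ℂ) ≠ 0 := by exact_mod_cast hτ.ne'
  have hI : I ^ 2 = -1 := I_sq
  rw [mul_pow, hI]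
  field_simp
  ring

theorem norm_gauss (τ c v t : ℝ) :
    ‖cexp ((τ : ℂ) ^ 2 * (ln c t) ^ 2 / 2 + (ln c t) * v)‖ =
      Real.exp (τ ^ 2 * (c ^ 2 - t ^ 2) / 2 + c * v) := by
  rw [Complex.norm_exp]
  congr 1
  have h1 : (τ : ℂ) ^ 2 * (ln c t) ^ 2 / 2 + (ln c t) * v =
      ((τ ^ 2 * (c ^ 2 - t ^ 2) / 2 + c * v : ℝ) : ℂ) + ((τ ^ 2 * c * t + t * v : ℝ) : ℂ) * I := by
    unfold ln
    push_cast
    have h : I ^ 2 = -1 := I_sq
    linear_combination ((τ : ℂ) ^ 2 * (t : ℂ) ^ 2 / 2) * h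
  rw [h1, add_re, ofReal_re, mul_I_re, ofReal_im, neg_zero, add_zero]

/-! ### Bounds for sums -/

theorem rpow_step {b : ℝ} (hb : 0 < b) {n : ℕ} (hn : 1 ≤ n) :
    ((n : ℝ) + 1) ^ (-(1 + b)) ≤ (n : ℝ) ^ (-b) / b - ((n : ℝ) + 1) ^ (-b) / b := by
  have hn0 : (0 : ℝ) < n := by exact_mod_cast hn
  have hn1 : (0 : ℝ) < (n : ℝ) + 1 := by linarith
  have h1 : (n : ℝ) ^ (-b) = ((n : ℝ) + 1) ^ (-b) * (((n : ℝ) + 1) / n) ^ b := by
    rw [Real.div_rpow hn1.le hn0.le, Real.rpow_neg hn0.le, Real.rpow_neg hn1.le]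
    field_simp
  have h2 : 1 + b / ((n : ℝ) + 1) ≤ (((n : ℝ) + 1) / n) ^ b := by
    have hpos : (0 : ℝ) < ((n : ℝ) + 1) / n := by positivity
    rw [Real.rpow_def_of_pos hpos]
    have h3 := Real.one_sub_inv_le_log_of_pos hpos
    have h4 : 1 - (((n : ℝ) + 1) / n)⁻¹ = 1 / ((n : ℝ) + 1) := by
      field_simp
      ring
    rw [h4] at h3
    have h5 := Real.add_one_le_exp (Real.log (((n : ℝ) + 1) / n) * b)
    have h6 : b / ((n : ℝ) + 1) ≤ Real.log (((n : ℝ) + 1) / n) * b := by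
      rw [div_eq_mul_one_div, mul_comm]
      exact mul_le_mul_of_nonneg_right h3 hb.le
    linarith
  have h7 : ((n : ℝ) + 1) ^ (-(1 + b)) = ((n : ℝ) + 1) ^ (-b) * ((n : ℝ) + 1)⁻¹ := by
    rw [show -(1 + b) = -b + -1 by ring, Real.rpow_add hn1, Real.rpow_neg_one]
  rw [h7, h1]
  have h8 : 0 < ((n : ℝ) + 1) ^ (-b) := Real.rpow_pos_of_pos hn1 _
  have h9 : ((n : ℝ) + 1) ^ (-b) * (1 + b / ((n : ℝ) + 1)) ≤
      ((n : ℝ) + 1) ^ (-b) * (((n : ℝ) + 1) / n) ^ b := mul_le_mul_of_nonneg_left h2 h8.le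
  rw [← sub_div, le_div_iff₀ hb]
  have h10 : ((n : ℝ) + 1) ^ (-b) * ((n : ℝ) + 1)⁻¹ * b =
    ((n : ℝ) + 1) ^ (-b) * (1 + b / ((n : ℝ) + 1)) - ((n : ℝ) + 1) ^ (-b) := by
    field_simp
    ring
  rw [h10]
  linarith

theorem sum_rpow_le {b : ℝ} (hb : 0 < b) (N : ℕ) :
    ∑ n ∈ range N, (n : ℝ) ^ (-(1 + b)) ≤ 1 + 1 / b := by
  have key : ∀ N : ℕ, 1 ≤ N → ∑ n ∈ range (N + 1), (n : ℝ) ^ (-(1 + b)) ≤
      1 + 1 / b - (N : ℝ) ^ (-b) / b := by
    intro N hN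
    induction N, hN using Nat.le_induction with
    | base =>
      rw [sum_range_succ, sum_range_one]
      have : ((0 : ℕ) : ℝ) ^ (-(1 + b)) = 0 := by
        rw [Nat.cast_zero]; exact Real.zero_rpow (by linarith)
      rw [this]
      simp
    | succ n hn ih =>
      rw [sum_range_succ]
      have := rpow_step hb hn
      push_cast
      linarith
  rcases Nat.lt_or_ge N 2 with h | h
  · interval_cases N
    · simp; positivity
    · rw [sum_range_one]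
      have : ((0 : ℕ) : ℝ) ^ (-(1 + b)) = 0 := by
        rw [Nat.cast_zero]; exact Real.zero_rpow (by linarith)
      rw [this]
      positivity
  · obtain ⟨m, rfl⟩ : ∃ m, N = m + 1 := ⟨N - 1, by omega⟩
    have h1 := key m (by omega)
    have : 0 ≤ (m : ℝ) ^ (-b) / b := by positivity
    linarith

/-- the von Mangoldt sum -/
noncomputable def zt (c : ℝ) (n : ℕ) : ℝ := Λ n * (n : ℝ) ^ (-c)

theorem zt_nonneg (c : ℝ) (n : ℕ) : 0 ≤ zt c n :=
  mul_nonneg vonMangoldt_nonneg (Real.rpow_nonneg (Nat.cast_nonneg n) _)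

theorem zt_le {a : ℝ} (ha : 0 < a) (n : ℕ) :
    zt (1 + a) n ≤ 2 / a * (n : ℝ) ^ (-(1 + a / 2)) := by
  rcases Nat.eq_zero_or_pos n with h | h
  · subst h
    unfold zt
    rw [Nat.cast_zero, Real.zero_rpow (by linarith), Real.zero_rpow (by linarith), mul_zero,
      mul_zero]
  · have hn : (0 : ℝ) < n := by exact_mod_cast h
    unfold zt
    have h1 : Λ n ≤ Real.log n := vonMangoldt_le_log
    have h2 := Real.log_le_rpow_div hn.le (show 0 < a / 2 by linarith)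
    have h3 : 0 < (n : ℝ) ^ (-(1 + a)) := Real.rpow_pos_of_pos hn _
    calc Λ n * (n : ℝ) ^ (-(1 + a)) ≤ ((n : ℝ) ^ (a / 2) / (a / 2)) * (n : ℝ) ^ (-(1 + a)) :=
          mul_le_mul_of_nonneg_right (h1.trans h2) h3.le
      _ = 2 / a * ((n : ℝ) ^ (a / 2) * (n : ℝ) ^ (-(1 + a))) := by field_simp
      _ = 2 / a * (n : ℝ) ^ (-(1 + a / 2)) := by
          rw [← Real.rpow_add hn]
          congr 2
          ring

theorem sum_zt_le {a : ℝ} (ha : 0 < a) (ha1 : a ≤ 1) (N : ℕ) :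
    ∑ n ∈ range N, zt (1 + a) n ≤ 6 / a ^ 2 := by
  calc ∑ n ∈ range N, zt (1 + a) n ≤ ∑ n ∈ range N, 2 / a * (n : ℝ) ^ (-(1 + a / 2)) :=
        sum_le_sum fun n _ => zt_le ha n
    _ = 2 / a * ∑ n ∈ range N, (n : ℝ) ^ (-(1 + a / 2)) := by rw [mul_sum]
    _ ≤ 2 / a * (1 + 1 / (a / 2)) := by
        apply mul_le_mul_of_nonneg_left (sum_rpow_le (by linarith) N) (by positivity)
    _ ≤ 6 / a ^ 2 := by
        have h1 : 2 / a * (1 + 1 / (a / 2)) = (2 * a + 4) / a ^ 2 := by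
          field_simp
          ring
        rw [h1]
        apply div_le_div_of_nonneg_right _ (by positivity)
        linarith

theorem summable_zt {a : ℝ} (ha : 0 < a) (ha1 : a ≤ 1) : Summable (zt (1 + a)) :=
  summable_of_sum_range_le (zt_nonneg _) (sum_zt_le ha ha1)

theorem tsum_zt_le {a : ℝ} (ha : 0 < a) (ha1 : a ≤ 1) : ∑' n, zt (1 + a) n ≤ 6 / a ^ 2 :=
  Real.tsum_le_of_sum_range_le (zt_nonneg _) (sum_zt_le ha ha1)

/-! ### The integral representation -/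

section rep

variable {q : ℕ} [NeZero q] (χ : DirichletCharacter ℂ q)

/-- coefficients of `-L'/L` -/
noncomputable def cf : ℕ → ℂ := (fun n : ℕ => χ n) * (fun n : ℕ => (Λ n : ℂ))

/-- the integrand -/
noncomputable def ff (τ Y : ℝ) (s : ℂ) : ℂ :=
  (-deriv χ.LFunction s / χ.LFunction s) *
    cexp ((τ : ℂ) ^ 2 * s ^ 2 / 2 + s * ((Real.log Y : ℝ) : ℂ))

theorem logDeriv_eq {s : ℂ} (hs : 1 < s.re) :
    -deriv χ.LFunction s / χ.LFunction s = LSeries (cf χ) s := by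
  rw [DirichletCharacter.deriv_LFunction_eq_deriv_LSeries χ hs,
    DirichletCharacter.LFunction_eq_LSeries χ hs]
  exact (DirichletCharacter.LSeries_twist_vonMangoldt_eq χ hs).symm

/-- one term -/
noncomputable def tm (τ Y c : ℝ) (n : ℕ) (t : ℝ) : ℂ :=
  LSeries.term (cf χ) (ln c t) n * cexp ((τ : ℂ) ^ 2 * (ln c t) ^ 2 / 2 +
    (ln c t) * ((Real.log Y : ℝ) : ℂ))

omit [NeZero q] in
theorem tm_zero (τ Y c t : ℝ) : tm χ τ Y c 0 t = 0 := by
  unfold tm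
  rw [LSeries.term_zero, zero_mul]

omit [NeZero q] in
theorem tm_eq {n : ℕ} (hn : n ≠ 0) (τ Y c t : ℝ) :
    tm χ τ Y c n t = χ n * (Λ n : ℂ) * cexp ((τ : ℂ) ^ 2 * (ln c t) ^ 2 / 2 +
      (ln c t) * ((Real.log Y - Real.log n : ℝ) : ℂ)) := by
  unfold tm cf
  rw [LSeries.term_of_ne_zero hn]
  have hn' : (n : ℂ) ≠ 0 := by exact_mod_cast hn
  rw [cpow_def_of_ne_zero hn', Pi.mul_apply, div_mul_eq_mul_div, mul_div_assoc, ← Complex.exp_sub]
  congr 2
  rw [← Complex.ofReal_natCast n, ← Complex.ofReal_log (Nat.cast_nonneg n)]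
  push_cast
  ring

omit [NeZero q] in
theorem norm_tm_le {τ Y c : ℝ} (n : ℕ) (t : ℝ) :
    ‖tm χ τ Y c n t‖ ≤ zt c n * Real.exp (τ ^ 2 * (c ^ 2 - t ^ 2) / 2 + c * Real.log Y) := by
  rcases Nat.eq_zero_or_pos n with h | h
  · subst h
    rw [tm_zero, norm_zero]
    exact mul_nonneg (zt_nonneg _ _) (Real.exp_pos _).le
  · have hn : (0 : ℝ) < n := by exact_mod_cast h
    rw [tm_eq χ h.ne', norm_mul, norm_mul, norm_gauss, Complex.norm_real,
      Real.norm_of_nonneg vonMangoldt_nonneg]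
    have h1 : ‖χ n‖ ≤ 1 := DirichletCharacter.norm_le_one χ _
    have h2 : Real.exp (τ ^ 2 * (c ^ 2 - t ^ 2) / 2 + c * (Real.log Y - Real.log n)) =
        (n : ℝ) ^ (-c) * Real.exp (τ ^ 2 * (c ^ 2 - t ^ 2) / 2 + c * Real.log Y) := by
      rw [Real.rpow_def_of_pos hn, ← Real.exp_add]
      congr 1
      ring
    rw [h2]
    unfold zt
    have h3 : 0 ≤ (n : ℝ) ^ (-c) * Real.exp (τ ^ 2 * (c ^ 2 - t ^ 2) / 2 + c * Real.log Y) := by
      positivity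
    have h4 : ‖χ n‖ * Λ n ≤ Λ n := mul_le_of_le_one_left vonMangoldt_nonneg h1
    calc ‖χ n‖ * Λ n * ((n : ℝ) ^ (-c) * Real.exp (τ ^ 2 * (c ^ 2 - t ^ 2) / 2 + c * Real.log Y))
        ≤ Λ n * ((n : ℝ) ^ (-c) * Real.exp (τ ^ 2 * (c ^ 2 - t ^ 2) / 2 + c * Real.log Y)) :=
          mul_le_mul_of_nonneg_right h4 h3
      _ = _ := by ring

theorem integrable_E {τ : ℝ} (hτ : 0 < τ) (c v : ℝ) :
    Integrable (fun t : ℝ => Real.exp (τ ^ 2 * (c ^ 2 - t ^ 2) / 2 + c * v)) := by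
  have := (integrable_gauss hτ c v).norm
  simpa only [norm_gauss] using this

omit [NeZero q] in
theorem integrable_tm {τ : ℝ} (hτ : 0 < τ) (Y c : ℝ) (n : ℕ) :
    Integrable (tm χ τ Y c n) := by
  rcases Nat.eq_zero_or_pos n with h | h
  · subst h
    have : tm χ τ Y c 0 = fun _ => 0 := funext fun t => tm_zero χ τ Y c t
    rw [this]
    exact integrable_zero _ _ _
  · have : tm χ τ Y c n = fun t => χ n * (Λ n : ℂ) * cexp ((τ : ℂ) ^ 2 * (ln c t) ^ 2 / 2 +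
      (ln c t) * ((Real.log Y - Real.log n : ℝ) : ℂ)) := funext fun t => tm_eq χ h.ne' τ Y c t
    rw [this]
    exact (integrable_gauss hτ c _).const_mul _

omit [NeZero q] in
theorem integral_tm {τ : ℝ} (hτ : 0 < τ) {Y : ℝ} (hY : 0 < Y) (c : ℝ) (n : ℕ) :
    ∫ t, tm χ τ Y c n t = ((Real.sqrt (2 * Real.pi) / τ : ℝ) : ℂ) * ((Λ n : ℂ) * χ n *
      (Real.exp (-(Real.log (n / Y)) ^ 2 / (2 * τ ^ 2)) : ℂ)) := by
  rcases Nat.eq_zero_or_pos n with h | h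
  · subst h
    have : tm χ τ Y c 0 = fun _ => 0 := funext fun t => tm_zero χ τ Y c t
    rw [this]
    simp
  · have hn : (0 : ℝ) < n := by exact_mod_cast h
    have : tm χ τ Y c n = fun t => χ n * (Λ n : ℂ) * cexp ((τ : ℂ) ^ 2 * (ln c t) ^ 2 / 2 +
      (ln c t) * ((Real.log Y - Real.log n : ℝ) : ℂ)) := funext fun t => tm_eq χ h.ne' τ Y c t
    rw [this, integral_const_mul, gauss_formula hτ, Real.log_div hn.ne' hY.ne']
    have e : (Real.log Y - Real.log n) ^ 2 = (Real.log n - Real.log Y) ^ 2 := by ring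
    rw [e]
    push_cast
    ring

theorem tsum_tm {τ Y c : ℝ} (hc : 1 < c) (t : ℝ) :
    ∑' n, tm χ τ Y c n t = ff χ τ Y (ln c t) := by
  unfold tm ff
  rw [tsum_mul_right, logDeriv_eq χ (by simpa using hc)]
  rfl

theorem gaussSum_eq {τ : ℝ} (hτ : 0 < τ) {Y : ℝ} (hY : 0 < Y) {a : ℝ} (ha : 0 < a) (ha1 : a ≤ 1) :
    gaussSum' χ τ Y = ((τ / Real.sqrt (2 * Real.pi) : ℝ) : ℂ) *
      ∫ t : ℝ, ff χ τ Y (ln (1 + a) t) := by
  have hsum : Summable fun n => ∫ t, ‖tm χ τ Y (1 + a) n t‖ := by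
    have hb : ∀ n, ∫ t, ‖tm χ τ Y (1 + a) n t‖ ≤ zt (1 + a) n *
        ∫ t : ℝ, Real.exp (τ ^ 2 * ((1 + a) ^ 2 - t ^ 2) / 2 + (1 + a) * Real.log Y) := by
      intro n
      rw [← integral_const_mul]
      exact integral_mono (integrable_tm χ hτ Y (1 + a) n).norm
        ((integrable_E hτ (1 + a) (Real.log Y)).const_mul _) (fun t => norm_tm_le χ n t)
    exact Summable.of_nonneg_of_le (fun n => integral_nonneg fun t => norm_nonneg _) hb
      ((summable_zt ha ha1).mul_right _)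
  have h := hasSum_integral_of_summable_integral_norm
    (fun n => integrable_tm χ hτ Y (1 + a) n) hsum
  have h1 : ∫ t, ∑' n, tm χ τ Y (1 + a) n t = ∫ t : ℝ, ff χ τ Y (ln (1 + a) t) := by
    congr 1
    funext t
    exact tsum_tm χ (by linarith) t
  rw [h1] at h
  have h2 := h.mul_left (((τ / Real.sqrt (2 * Real.pi) : ℝ) : ℂ))
  have h3 : (fun n => (((τ / Real.sqrt (2 * Real.pi) : ℝ) : ℂ)) * ∫ t, tm χ τ Y (1 + a) n t) =
      fun n : ℕ => (Λ n : ℂ) * χ n * (Real.exp (-(Real.log (n / Y)) ^ 2 / (2 * τ ^ 2)) : ℂ) := by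
    funext n
    rw [integral_tm χ hτ hY, ← mul_assoc, ← Complex.ofReal_mul]
    have : τ / Real.sqrt (2 * Real.pi) * (Real.sqrt (2 * Real.pi) / τ) = 1 := by
      have : 0 < Real.sqrt (2 * Real.pi) := by positivity
      field_simp
    rw [this]
    simp
  rw [h3] at h2
  exact h2.tsum_eq

theorem norm_ff_le {τ Y a : ℝ} (_hτ : 0 < τ) (ha : 0 < a) (ha1 : a ≤ 1) (t : ℝ) :
    ‖ff χ τ Y (ln (1 + a) t)‖ ≤
      6 / a ^ 2 * Real.exp (τ ^ 2 * ((1 + a) ^ 2 - t ^ 2) / 2 + (1 + a) * Real.log Y) := by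
  rw [← tsum_tm χ (by linarith) t]
  have hb := fun n => norm_tm_le χ (τ := τ) (Y := Y) (c := 1 + a) n t
  have hs := (summable_zt ha ha1).mul_right
    (Real.exp (τ ^ 2 * ((1 + a) ^ 2 - t ^ 2) / 2 + (1 + a) * Real.log Y))
  refine (tsum_of_norm_bounded hs.hasSum hb).trans ?_
  rw [tsum_mul_right]
  exact mul_le_mul_of_nonneg_right (tsum_zt_le ha ha1) (Real.exp_pos _).le

/-! ### The contour shift -/

theorem integral_E {τ : ℝ} (hτ : 0 < τ) (x v : ℝ) :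
    ∫ y : ℝ, Real.exp (τ ^ 2 * (x ^ 2 - y ^ 2) / 2 + x * v) =
      Real.exp (τ ^ 2 * x ^ 2 / 2 + x * v) * (Real.sqrt (2 * Real.pi) / τ) := by
  have h := integral_gaussian (τ ^ 2 / 2)
  have e1 : Real.sqrt (Real.pi / (τ ^ 2 / 2)) = Real.sqrt (2 * Real.pi) / τ := by
    rw [show Real.pi / (τ ^ 2 / 2) = (2 * Real.pi) / τ ^ 2 by field_simp,
      Real.sqrt_div (by positivity), Real.sqrt_sq hτ.le]
  rw [e1] at h
  rw [← h, ← integral_const_mul]
  congr 1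
  funext y
  rw [← Real.exp_add]
  congr 1
  ring

theorem integral_shift {τ : ℝ} (hτ : 0 < τ) (u : ℝ) :
    ∫ y : ℝ, Real.exp (-(τ ^ 2 * (y - u) ^ 2 / 2)) = Real.sqrt (2 * Real.pi) / τ := by
  have h := integral_sub_right_eq_self (μ := volume)
    (fun y : ℝ => Real.exp (-(τ ^ 2 * y ^ 2 / 2))) u
  rw [h]
  have h2 := integral_E hτ 0 0
  simp only [mul_zero, add_zero, ne_eq, OfNat.ofNat_ne_zero, not_false_eq_true, zero_pow,
    zero_sub, zero_div, Real.exp_zero, one_mul] at h2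
  rw [← h2]
  congr 1
  funext y
  congr 1
  ring

theorem integrable_shift {τ : ℝ} (hτ : 0 < τ) (u : ℝ) :
    Integrable (fun y : ℝ => Real.exp (-(τ ^ 2 * (y - u) ^ 2 / 2))) := by
  have h := (integrable_E hτ 0 0).comp_sub_right u
  refine h.congr (Eventually.of_forall fun y => ?_)
  show Real.exp _ = Real.exp _
  congr 1
  ring

theorem norm_ff (τ Y x y : ℝ) : ‖ff χ τ Y (ln x y)‖ =
    ‖deriv χ.LFunction (ln x y) / χ.LFunction (ln x y)‖ *
      Real.exp (τ ^ 2 * (x ^ 2 - y ^ 2) / 2 + x * Real.log Y) := by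
  unfold ff
  rw [norm_mul, norm_gauss, neg_div, norm_neg]

variable {χ}

theorem differentiable_deriv_L (hχ : χ ≠ 1) : Differentiable ℂ (deriv χ.LFunction) := by
  have hL := DirichletCharacter.differentiable_LFunction hχ
  rw [← differentiableOn_univ]
  exact hL.differentiableOn.deriv isOpen_univ

theorem differentiableAt_ff (hχ : χ ≠ 1) (τ Y : ℝ) {s : ℂ} (hs : χ.LFunction s ≠ 0) :
    DifferentiableAt ℂ (ff χ τ Y) s := by
  have hL := DirichletCharacter.differentiable_LFunction hχ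
  have hL' := differentiable_deriv_L hχ
  unfold ff
  refine DifferentiableAt.mul ((hL' s).neg.div (hL s) hs) ?_
  fun_prop

theorem continuous_ff_ln (hχ : χ ≠ 1) (τ Y : ℝ) {c : ℝ} (hc : 1 < c) :
    Continuous (fun t : ℝ => ff χ τ Y (ln c t)) := by
  rw [continuous_iff_continuousAt]
  intro t
  have hne : χ.LFunction (ln c t) ≠ 0 :=
    DirichletCharacter.LFunction_ne_zero_of_one_le_re χ (Or.inl hχ) (by simpa using hc.le)
  have h1 : ContinuousAt (ff χ τ Y) (ln c t) := (differentiableAt_ff hχ τ Y hne).continuousAt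
  have h2 : Continuous (fun t : ℝ => ln c t) := by unfold ln; fun_prop
  exact ContinuousAt.comp (f := fun t : ℝ => ln c t) h1 h2.continuousAt

theorem integrable_ff (hχ : χ ≠ 1) {τ : ℝ} (hτ : 0 < τ) (Y : ℝ) {a : ℝ} (ha : 0 < a)
    (ha1 : a ≤ 1) : Integrable (fun t : ℝ => ff χ τ Y (ln (1 + a) t)) := by
  refine Integrable.mono' ((integrable_E hτ (1 + a) (Real.log Y)).const_mul (6 / a ^ 2))
    (continuous_ff_ln hχ τ Y (by linarith)).aestronglyMeasurable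
    (Eventually.of_forall fun t => norm_ff_le χ hτ ha ha1 t)

/-- the tail of the integral on the line `Re s = 1 + a` -/
theorem tail_bound {τ : ℝ} (hτ : 0 < τ) (Y : ℝ) {a : ℝ} (ha : 0 < a)
    (ha1 : a ≤ 1) {T : ℝ} (hT : 0 ≤ T) :
    ‖∫ t in (Set.Ioc (-T) T)ᶜ, ff χ τ Y (ln (1 + a) t)‖ ≤
      6 / a ^ 2 * (Real.exp (τ ^ 2 * ((1 + a) ^ 2 - T ^ 2) / 2 + (1 + a) * Real.log Y) *
        (2 * (Real.sqrt (2 * Real.pi) / τ))) := by
  set A : ℝ := Real.exp (τ ^ 2 * ((1 + a) ^ 2 - T ^ 2) / 2 + (1 + a) * Real.log Y) with hA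
  set g : ℝ → ℝ := fun t => 6 / a ^ 2 * (A * (Real.exp (-(τ ^ 2 * (t - T) ^ 2 / 2)) +
    Real.exp (-(τ ^ 2 * (t - -T) ^ 2 / 2)))) with hg
  have hgi : Integrable g :=
    ((((integrable_shift hτ T).add (integrable_shift hτ (-T))).const_mul A).const_mul _)
  have hgint : ∫ t, g t = 6 / a ^ 2 * (A * (2 * (Real.sqrt (2 * Real.pi) / τ))) := by
    rw [hg, integral_const_mul, integral_const_mul,
      integral_add (integrable_shift hτ T) (integrable_shift hτ (-T)), integral_shift hτ,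
      integral_shift hτ]
    ring
  have hpt : ∀ t ∈ (Set.Ioc (-T) T)ᶜ, ‖ff χ τ Y (ln (1 + a) t)‖ ≤ g t := by
    intro t ht
    refine (norm_ff_le χ hτ ha ha1 t).trans ?_
    apply mul_le_mul_of_nonneg_left _ (by positivity)
    rw [Set.mem_compl_iff, Set.mem_Ioc, not_and_or, not_lt, not_le] at ht
    have hτ2 : 0 < τ ^ 2 := by positivity
    rcases ht with ht | ht
    · have h1 : Real.exp (τ ^ 2 * ((1 + a) ^ 2 - t ^ 2) / 2 + (1 + a) * Real.log Y) ≤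
          A * Real.exp (-(τ ^ 2 * (t - -T) ^ 2 / 2)) := by
        rw [hA, ← Real.exp_add]
        apply Real.exp_le_exp.mpr
        have : T ^ 2 + (t - -T) ^ 2 ≤ t ^ 2 := by nlinarith
        nlinarith
      refine h1.trans ?_
      apply mul_le_mul_of_nonneg_left _ (Real.exp_pos _).le
      linarith [Real.exp_pos (-(τ ^ 2 * (t - T) ^ 2 / 2))]
    · have h1 : Real.exp (τ ^ 2 * ((1 + a) ^ 2 - t ^ 2) / 2 + (1 + a) * Real.log Y) ≤
          A * Real.exp (-(τ ^ 2 * (t - T) ^ 2 / 2)) := by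
        rw [hA, ← Real.exp_add]
        apply Real.exp_le_exp.mpr
        have : T ^ 2 + (t - T) ^ 2 ≤ t ^ 2 := by nlinarith
        nlinarith
      refine h1.trans ?_
      apply mul_le_mul_of_nonneg_left _ (Real.exp_pos _).le
      linarith [Real.exp_pos (-(τ ^ 2 * (t - -T) ^ 2 / 2))]
  calc ‖∫ t in (Set.Ioc (-T) T)ᶜ, ff χ τ Y (ln (1 + a) t)‖
      ≤ ∫ t in (Set.Ioc (-T) T)ᶜ, g t :=
        norm_integral_le_of_norm_le hgi.integrableOn
          ((ae_restrict_iff' measurableSet_Ioc.compl).mpr (Eventually.of_forall hpt))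
    _ ≤ ∫ t, g t := setIntegral_le_integral hgi (Eventually.of_forall fun t => by
        simp only [hg, Pi.zero_apply]; positivity)
    _ = _ := hgint

/-- the main part -/
theorem rect_bound (hχ : χ ≠ 1) {τ : ℝ} (hτ : 0 < τ) {Y : ℝ} (hY : 1 ≤ Y) {T σ₀ δ D : ℝ}
    (hT : 0 ≤ T) (hσ : 1 / 2 ≤ σ₀) (hσ1 : σ₀ ≤ 1) (hδ : 0 < δ) (hδ1 : δ ≤ 1 / 2)
    (hz : ZF χ σ₀ (T + 3))
    (hD : ∀ s : ℂ, σ₀ + δ ≤ s.re → s.re ≤ 2 → |s.im| ≤ T →
      ‖deriv χ.LFunction s / χ.LFunction s‖ ≤ D) :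
    ‖∫ t in (-T)..T, ff χ τ Y (ln (1 + δ) t)‖ ≤
      D * (Real.exp (τ ^ 2 * (σ₀ + δ) ^ 2 / 2 + (σ₀ + δ) * Real.log Y) *
        (Real.sqrt (2 * Real.pi) / τ)) +
      2 * (D * Real.exp (τ ^ 2 * ((1 + δ) ^ 2 - T ^ 2) / 2 + (1 + δ) * Real.log Y)) := by
  have hlog : 0 ≤ Real.log Y := Real.log_nonneg hY
  have hD0 : 0 ≤ D := (norm_nonneg _).trans (hD (ln (σ₀ + δ) 0) (by simp) (by simp; linarith)
    (by simpa using hT))
  have hσc : σ₀ + δ ≤ 1 + δ := by linarith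
  have hdiff : DifferentiableOn ℂ (ff χ τ Y)
      (Set.uIcc (ln (σ₀ + δ) (-T)).re (ln (1 + δ) T).re ×ℂ
        Set.uIcc (ln (σ₀ + δ) (-T)).im (ln (1 + δ) T).im) := by
    intro s hs
    rw [ln_re, ln_re, ln_im, ln_im, Set.uIcc_of_le hσc, Set.uIcc_of_le (by linarith)] at hs
    obtain ⟨h1, h2⟩ := hs
    have hne : χ.LFunction s ≠ 0 := by
      apply hz s
      · linarith [h1.1]
      · rw [abs_le]
        constructor <;> linarith [h2.1, h2.2]
    exact (differentiableAt_ff hχ τ Y hne).differentiableWithinAt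
  have hrect := integral_boundary_rect_eq_zero_of_differentiableOn (ff χ τ Y)
    (ln (σ₀ + δ) (-T)) (ln (1 + δ) T) hdiff
  simp only [ln_re, ln_im] at hrect
  have e1 : ∀ x y : ℝ, (x : ℂ) + (y : ℂ) * I = ln x y := fun _ _ => rfl
  simp only [e1] at hrect
  have hkey : I • (∫ t in (-T)..T, ff χ τ Y (ln (1 + δ) t)) =
      I • (∫ t in (-T)..T, ff χ τ Y (ln (σ₀ + δ) t)) +
      ((∫ x in (σ₀ + δ)..(1 + δ), ff χ τ Y (ln x T)) -
        (∫ x in (σ₀ + δ)..(1 + δ), ff χ τ Y (ln x (-T)))) := by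
    linear_combination hrect
  have hn : ‖∫ t in (-T)..T, ff χ τ Y (ln (1 + δ) t)‖ ≤
      ‖∫ t in (-T)..T, ff χ τ Y (ln (σ₀ + δ) t)‖ +
      (‖∫ x in (σ₀ + δ)..(1 + δ), ff χ τ Y (ln x T)‖ +
        ‖∫ x in (σ₀ + δ)..(1 + δ), ff χ τ Y (ln x (-T))‖) := by
    have h1 := congrArg norm hkey
    rw [norm_smul, norm_I, one_mul] at h1
    rw [h1]
    refine (norm_add_le _ _).trans ?_
    rw [norm_smul, norm_I, one_mul]
    gcongr
    exact norm_sub_le _ _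
  -- the vertical part
  have hv : ‖∫ t in (-T)..T, ff χ τ Y (ln (σ₀ + δ) t)‖ ≤
      D * (Real.exp (τ ^ 2 * (σ₀ + δ) ^ 2 / 2 + (σ₀ + δ) * Real.log Y) *
        (Real.sqrt (2 * Real.pi) / τ)) := by
    have hint := (integrable_E hτ (σ₀ + δ) (Real.log Y)).const_mul D
    have h1 := intervalIntegral.norm_integral_le_of_norm_le (μ := volume)
      (f := fun t : ℝ => ff χ τ Y (ln (σ₀ + δ) t)) (a := -T) (b := T)
      (g := fun t => D * Real.exp (τ ^ 2 * ((σ₀ + δ) ^ 2 - t ^ 2) / 2 + (σ₀ + δ) * Real.log Y))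
      (by linarith) (Eventually.of_forall fun t ht => by
        rw [norm_ff]
        apply mul_le_mul_of_nonneg_right _ (Real.exp_pos _).le
        apply hD
        · simp
        · simp; linarith
        · simp only [ln_im]
          rw [abs_le]
          exact ⟨ht.1.le, ht.2⟩) hint.intervalIntegrable
    refine h1.trans ?_
    rw [intervalIntegral.integral_of_le (by linarith), ← integral_E hτ, ← integral_const_mul]
    exact setIntegral_le_integral hint (Eventually.of_forall fun t => by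
      simp only [Pi.zero_apply]; positivity)
  -- the horizontal parts
  have hh : ∀ y : ℝ, |y| = T → ‖∫ x in (σ₀ + δ)..(1 + δ), ff χ τ Y (ln x y)‖ ≤
      D * Real.exp (τ ^ 2 * ((1 + δ) ^ 2 - T ^ 2) / 2 + (1 + δ) * Real.log Y) := by
    intro y hy
    have hy2 : y ^ 2 = T ^ 2 := by rw [← hy, sq_abs]
    have h1 := intervalIntegral.norm_integral_le_of_norm_le_const
      (f := fun x : ℝ => ff χ τ Y (ln x y)) (a := σ₀ + δ) (b := 1 + δ)
      (C := D * Real.exp (τ ^ 2 * ((1 + δ) ^ 2 - T ^ 2) / 2 + (1 + δ) * Real.log Y))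
      (fun x hx => by
        rw [Set.uIoc_of_le hσc] at hx
        rw [norm_ff]
        apply mul_le_mul
        · apply hD
          · simp only [ln_re]; exact hx.1.le
          · simp only [ln_re]; linarith [hx.2]
          · simp only [ln_im]; exact hy.le
        · apply Real.exp_le_exp.mpr
          rw [hy2]
          have hx0 : 0 ≤ x := by linarith [hx.1]
          have hx2 : x ^ 2 ≤ (1 + δ) ^ 2 := pow_le_pow_left₀ hx0 hx.2 2
          have hτ2 : 0 < τ ^ 2 := by positivity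
          have h3 : x * Real.log Y ≤ (1 + δ) * Real.log Y := mul_le_mul_of_nonneg_right hx.2 hlog
          nlinarith
        · exact (Real.exp_pos _).le
        · exact hD0)
    refine h1.trans ?_
    rw [show 1 + δ - (σ₀ + δ) = 1 - σ₀ by ring, abs_of_nonneg (by linarith)]
    have h4 : 0 ≤ D * Real.exp (τ ^ 2 * ((1 + δ) ^ 2 - T ^ 2) / 2 + (1 + δ) * Real.log Y) := by
      positivity
    nlinarith
  have h5 := hh T (abs_of_nonneg hT)
  have h6 := hh (-T) (by rw [abs_neg, abs_of_nonneg hT])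
  linarith

end rep

/-- Block S3b. -/
theorem gaussBound (hLD : LogDeriv) : GaussBound := by
  obtain ⟨C₀, hC₀, hLD⟩ := hLD
  intro τ hτ hτ1
  refine ⟨Real.exp 3 * (3 * C₀ + 12), by positivity, ?_⟩
  intro q _ χ hχ T σ₀ Y hT hσ hσ1 hY hz
  have hY0 : (0 : ℝ) < Y := by linarith
  have hlogY : 2 ≤ Real.log Y := by
    rw [Real.le_log_iff_exp_le hY0]
    have h1 := Real.exp_one_lt_d9
    have h2 : Real.exp 2 = Real.exp 1 ^ 2 := by
      rw [← Real.exp_nat_mul]; norm_num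
    rw [h2]
    have h3 : 0 < Real.exp 1 := Real.exp_pos 1
    nlinarith
  set lY := Real.log Y with hlY
  set δ : ℝ := 1 / lY with hδ
  have hδ0 : 0 < δ := by positivity
  have hδ1 : δ ≤ 1 / 2 := by
    rw [hδ]
    exact one_div_le_one_div_of_le (by norm_num) hlogY
  have hδl : δ * lY = 1 := by rw [hδ]; field_simp
  set Lq := Real.log (q * (T + 2)) with hLq
  have hq : (1 : ℝ) ≤ q := by
    have := NeZero.one_le (n := q)
    exact_mod_cast this
  have hLq1 : 1 ≤ Lq := by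
    rw [hLq, Real.le_log_iff_exp_le (by positivity)]
    have h1 := Real.exp_one_lt_d9
    nlinarith
  have hD := hLD q χ hχ T σ₀ δ hT hσ hσ1 hδ0 hδ1 hz
  have hDe : C₀ * Lq / δ ^ 2 = C₀ * Lq * lY ^ 2 := by
    rw [hδ]; field_simp
  rw [hDe] at hD
  have hmain := rect_bound hχ hτ (by linarith : 1 ≤ Y) (by linarith : 0 ≤ T) hσ hσ1 hδ0 hδ1 hz hD
  have htail := tail_bound (χ := χ) hτ Y hδ0 (by linarith) (by linarith : 0 ≤ T)
  have hsplit : ∫ t : ℝ, ff χ τ Y (ln (1 + δ) t) =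
      (∫ t in (-T)..T, ff χ τ Y (ln (1 + δ) t)) +
        ∫ t in (Set.Ioc (-T) T)ᶜ, ff χ τ Y (ln (1 + δ) t) := by
    rw [intervalIntegral.integral_of_le (by linarith)]
    exact (integral_add_compl measurableSet_Ioc
      (integrable_ff hχ hτ Y hδ0 (by linarith))).symm
  rw [gaussSum_eq χ hτ hY0 hδ0 (by linarith), hsplit, norm_mul, Complex.norm_real,
    Real.norm_of_nonneg (by positivity)]
  set G : ℝ := Real.sqrt (2 * Real.pi) / τ with hG
  have hsq : 1 ≤ Real.sqrt (2 * Real.pi) := by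
    rw [Real.one_le_sqrt]
    linarith [Real.pi_gt_three]
  have hG0 : 0 < G := by positivity
  have hGinv : τ / Real.sqrt (2 * Real.pi) = 1 / G := by rw [hG]; field_simp
  have hG1 : 1 / G ≤ 1 := by
    rw [← hGinv, div_le_one (by positivity)]
    linarith
  rw [hGinv]
  -- exponential estimates
  have hexp1 : Real.exp (τ ^ 2 * (σ₀ + δ) ^ 2 / 2 + (σ₀ + δ) * lY) ≤ Real.exp 3 * Y ^ σ₀ := by
    rw [Real.rpow_def_of_pos hY0, ← Real.exp_add]
    apply Real.exp_le_exp.mpr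
    have h1 : (σ₀ + δ) ^ 2 ≤ (3 / 2) ^ 2 := pow_le_pow_left₀ (by linarith) (by linarith) 2
    have h2 : τ ^ 2 ≤ 1 := by nlinarith
    have h3 : τ ^ 2 * (σ₀ + δ) ^ 2 ≤ 1 * (3 / 2) ^ 2 :=
      mul_le_mul h2 h1 (by positivity) (by norm_num)
    have h4 : (σ₀ + δ) * lY = lY * σ₀ + 1 := by linear_combination hδl
    rw [h4]
    linarith
  set EE : ℝ := Real.exp (-τ ^ 2 * T ^ 2 / 2) with hEE
  have hexp2 : Real.exp (τ ^ 2 * ((1 + δ) ^ 2 - T ^ 2) / 2 + (1 + δ) * lY) ≤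
      Real.exp 3 * (Y * EE) := by
    have hYe : Y = Real.exp lY := (Real.exp_log hY0).symm
    have e : Real.exp 3 * (Y * EE) = Real.exp (3 + (lY + -τ ^ 2 * T ^ 2 / 2)) := by
      rw [Real.exp_add, Real.exp_add, ← hYe]
    rw [e]
    apply Real.exp_le_exp.mpr
    have h1 : (1 + δ) ^ 2 ≤ (3 / 2) ^ 2 := pow_le_pow_left₀ (by linarith) (by linarith) 2
    have h2 : τ ^ 2 ≤ 1 := by nlinarith
    have h3 : τ ^ 2 * (1 + δ) ^ 2 ≤ 1 * (3 / 2) ^ 2 :=
      mul_le_mul h2 h1 (by positivity) (by norm_num)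
    have h4 : (1 + δ) * lY = lY + 1 := by linear_combination hδl
    rw [h4]
    linarith
  have h6a : 6 / δ ^ 2 = 6 * lY ^ 2 := by rw [hδ]; field_simp
  rw [h6a] at htail
  have hY1 : 0 < Y ^ σ₀ := Real.rpow_pos_of_pos hY0 _
  have hEE0 : 0 < EE := Real.exp_pos _
  have hl2 : 0 < lY ^ 2 := by positivity
  have e3 : 0 < Real.exp 3 := Real.exp_pos 3
  have b1 : C₀ * Lq * lY ^ 2 * (Real.exp (τ ^ 2 * (σ₀ + δ) ^ 2 / 2 + (σ₀ + δ) * lY) * G) ≤
      C₀ * Lq * lY ^ 2 * (Real.exp 3 * Y ^ σ₀ * G) :=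
    mul_le_mul_of_nonneg_left (mul_le_mul_of_nonneg_right hexp1 hG0.le) (by positivity)
  have b2 : C₀ * Lq * lY ^ 2 *
      Real.exp (τ ^ 2 * ((1 + δ) ^ 2 - T ^ 2) / 2 + (1 + δ) * lY) ≤
      C₀ * Lq * lY ^ 2 * (Real.exp 3 * (Y * EE)) :=
    mul_le_mul_of_nonneg_left hexp2 (by positivity)
  have b3 : 6 * lY ^ 2 * (Real.exp (τ ^ 2 * ((1 + δ) ^ 2 - T ^ 2) / 2 + (1 + δ) * lY) *
      (2 * G)) ≤ 6 * lY ^ 2 * (Real.exp 3 * (Y * EE) * (2 * G)) :=
    mul_le_mul_of_nonneg_left (mul_le_mul_of_nonneg_right hexp2 (by positivity)) (by positivity)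
  have htot : ‖(∫ t in (-T)..T, ff χ τ Y (ln (1 + δ) t)) +
      ∫ t in (Set.Ioc (-T) T)ᶜ, ff χ τ Y (ln (1 + δ) t)‖ ≤
      C₀ * Lq * lY ^ 2 * (Real.exp 3 * Y ^ σ₀ * G) +
      2 * (C₀ * Lq * lY ^ 2 * (Real.exp 3 * (Y * EE))) +
      6 * lY ^ 2 * (Real.exp 3 * (Y * EE) * (2 * G)) := by
    refine (norm_add_le _ _).trans ?_
    linarith
  calc 1 / G * ‖(∫ t in (-T)..T, ff χ τ Y (ln (1 + δ) t)) +
      ∫ t in (Set.Ioc (-T) T)ᶜ, ff χ τ Y (ln (1 + δ) t)‖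
      ≤ 1 / G * (C₀ * Lq * lY ^ 2 * (Real.exp 3 * Y ^ σ₀ * G) +
      2 * (C₀ * Lq * lY ^ 2 * (Real.exp 3 * (Y * EE))) +
      6 * lY ^ 2 * (Real.exp 3 * (Y * EE) * (2 * G))) :=
        mul_le_mul_of_nonneg_left htot (by positivity)
    _ = C₀ * Lq * lY ^ 2 * (Real.exp 3 * Y ^ σ₀) +
        1 / G * (2 * (C₀ * Lq * lY ^ 2 * (Real.exp 3 * (Y * EE)))) +
        12 * lY ^ 2 * (Real.exp 3 * (Y * EE)) := by
        field_simp
        ring
    _ ≤ C₀ * Lq * lY ^ 2 * (Real.exp 3 * Y ^ σ₀) +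
        1 * (2 * (C₀ * Lq * lY ^ 2 * (Real.exp 3 * (Y * EE)))) +
        12 * (Lq * lY ^ 2) * (Real.exp 3 * (Y * EE)) := by
        have p1 : 1 / G * (2 * (C₀ * Lq * lY ^ 2 * (Real.exp 3 * (Y * EE)))) ≤
            1 * (2 * (C₀ * Lq * lY ^ 2 * (Real.exp 3 * (Y * EE)))) :=
          mul_le_mul_of_nonneg_right hG1 (by positivity)
        have p2 : lY ^ 2 ≤ Lq * lY ^ 2 := le_mul_of_one_le_left hl2.le hLq1
        have p3 : 12 * lY ^ 2 * (Real.exp 3 * (Y * EE)) ≤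
            12 * (Lq * lY ^ 2) * (Real.exp 3 * (Y * EE)) :=
          mul_le_mul_of_nonneg_right (by linarith) (by positivity)
        linarith
    _ ≤ Real.exp 3 * (3 * C₀ + 12) * Lq * lY ^ 2 * (Y ^ σ₀ + Y * EE) := by
        have p1 : 0 ≤ Real.exp 3 * Lq * lY ^ 2 * ((2 * C₀ + 12) * Y ^ σ₀ + C₀ * (Y * EE)) := by
          positivity
        have p2 : Real.exp 3 * (3 * C₀ + 12) * Lq * lY ^ 2 * (Y ^ σ₀ + Y * EE) -
            (C₀ * Lq * lY ^ 2 * (Real.exp 3 * Y ^ σ₀) +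
              1 * (2 * (C₀ * Lq * lY ^ 2 * (Real.exp 3 * (Y * EE)))) +
              12 * (Lq * lY ^ 2) * (Real.exp 3 * (Y * EE))) =
            Real.exp 3 * Lq * lY ^ 2 * ((2 * C₀ + 12) * Y ^ σ₀ + C₀ * (Y * EE)) := by ring
        linarith

end Pool.Agent.Work.MP_b0c12c_nt_helper6
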