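import Pool.Agent.Work.MP_b0c12c_nt_helper6.LBound
import Pool.Agent.Work.MP_b0c12c_nt_helper6.Gauss

/-!
# Block S3a: the logarithmic derivative to the right of a zero-free region
-/

set_option autoImplicit false

open Complex Metric Filter Topology

namespace Pool.Agent.Work.MP_b0c12c_nt_helper6

open Pool.Agent.Work.MP_b0c12c_nt.Itf2 (ZF LogDeriv GaussBound)

/-- holomorphic logarithm on a disc, with the derivative -/
theorem exists_log_ball {g : ℂ → ℂ} {c : ℂ} {R : ℝ} (hR : 0 < R)
    (hg : DifferentiableOn ℂ g (ball c R)) (hne : ∀ z ∈ ball c R, g z ≠ 0) :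
    ∃ l : ℂ → ℂ, (∀ z ∈ ball c R, HasDerivAt l (deriv g z / g z) z) ∧
      ∀ z ∈ ball c R, exp (l z) = g z := by
  have hdg : DifferentiableOn ℂ (deriv g) (ball c R) := hg.deriv isOpen_ball
  have hq : DifferentiableOn ℂ (fun z => deriv g z / g z) (ball c R) := hdg.div hg hne
  obtain ⟨F, hF⟩ := hq.isExactOn_ball
  have hgat : ∀ z ∈ ball c R, HasDerivAt g (deriv g z) z := fun z hz =>
    (hg.differentiableAt (isOpen_ball.mem_nhds hz)).hasDerivAt
  have hG : ∀ z ∈ ball c R, HasDerivAt (fun z => g z * exp (-F z)) 0 z := by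
    intro z hz
    have h1 := (hgat z hz).mul ((hF z hz).neg.cexp)
    refine h1.congr_deriv ?_
    have := hne z hz
    field_simp
    ring
  have hGd : DifferentiableOn ℂ (fun z => g z * exp (-F z)) (ball c R) :=
    fun z hz => (hG z hz).differentiableAt.differentiableWithinAt
  have hconst : ∀ z ∈ ball c R, g z * exp (-F z) = g c * exp (-F c) := by
    intro z hz
    exact isOpen_ball.is_const_of_deriv_eq_zero (convex_ball c R).isPreconnected hGd
      (fun x hx => (hG x hx).deriv) hz (mem_ball_self hR)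
  have hcne : g c * exp (-F c) ≠ 0 := mul_ne_zero (hne c (mem_ball_self hR)) (exp_ne_zero _)
  refine ⟨fun z => F z + log (g c * exp (-F c)), fun z hz => (hF z hz).add_const _, ?_⟩
  intro z hz
  rw [exp_add, exp_log hcne, ← hconst z hz]
  rw [mul_left_comm, ← exp_add]
  simp

/-- Logarithmic derivative of a zero-free function with bounded growth. -/
theorem norm_logDeriv_le {g : ℂ → ℂ} {c s : ℂ} {R M d : ℝ} (hR : 0 < R)
    (hg : DifferentiableOn ℂ g (ball c R)) (hne : ∀ z ∈ ball c R, g z ≠ 0) (hM : 0 < M)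
    (hup : ∀ z ∈ ball c R, ‖g z‖ ≤ Real.exp M * ‖g c‖) (hd : 0 < d) (hs : ‖s - c‖ + d ≤ R) :
    ‖deriv g s / g s‖ ≤ 8 * M * R / d ^ 2 := by
  obtain ⟨l, hl, hexp⟩ := exists_log_ball hR hg hne
  have hcb : c ∈ ball c R := mem_ball_self hR
  have hre : ∀ z ∈ ball c R, (l z - l c).re ≤ M := by
    intro z hz
    have h1 : ‖g z‖ = Real.exp (l z).re := by rw [← hexp z hz, norm_exp]
    have h2 : ‖g c‖ = Real.exp (l c).re := by rw [← hexp c hcb, norm_exp]
    have h3 := hup z hz
    rw [h1, h2, ← Real.exp_add, Real.exp_le_exp] at h3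
    rw [sub_re]
    linarith
  have hmaps : Set.MapsTo (fun w => c + w) (ball (0 : ℂ) R) (ball c R) := by
    intro w hw
    rw [mem_ball_zero_iff] at hw
    rw [mem_ball, dist_eq_norm]
    simpa using hw
  have hld : DifferentiableOn ℂ l (ball c R) := fun z hz =>
    (hl z hz).differentiableAt.differentiableWithinAt
  have hdiff : DifferentiableOn ℂ (fun w => l (c + w) - l c) (ball 0 R) := by
    apply DifferentiableOn.sub_const
    exact hld.comp ((differentiable_const _).add differentiable_id).differentiableOn hmaps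
  have hBC : ∀ z ∈ ball c R, ‖l z - l c‖ ≤ 2 * M * ‖z - c‖ / (R - ‖z - c‖) := by
    intro z hz
    have hz' : z - c ∈ ball (0 : ℂ) R := by
      rw [mem_ball_zero_iff, ← dist_eq_norm]; exact hz
    have := borelCaratheodory_zero (f := fun w => l (c + w) - l c) hM hdiff
      (fun w hw => hre _ (hmaps hw)) hR hz' (by simp)
    simpa using this
  have hsb : s ∈ ball c R := by
    rw [mem_ball, dist_eq_norm]; linarith
  have hsub : closedBall s (d / 2) ⊆ ball c R := by
    intro z hz
    rw [mem_closedBall, dist_eq_norm] at hz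
    rw [mem_ball, dist_eq_norm]
    have : ‖z - c‖ ≤ ‖z - s‖ + ‖s - c‖ := norm_sub_le_norm_sub_add_norm_sub z s c
    linarith
  have hcl : DiffContOnCl ℂ (fun z => l z - l c) (ball s (d / 2)) := by
    refine DifferentiableOn.diffContOnCl ?_
    rw [closure_ball s (by positivity)]
    exact (hld.mono hsub).sub_const _
  have hC : ∀ z ∈ sphere s (d / 2), ‖l z - l c‖ ≤ 4 * M * R / d := by
    intro z hz
    have hz1 : ‖z - s‖ = d / 2 := by rwa [mem_sphere, dist_eq_norm] at hz
    have hz2 : z ∈ ball c R := hsub (sphere_subset_closedBall hz)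
    have h1 := hBC z hz2
    have h2 : ‖z - c‖ ≤ R - d / 2 := by
      have : ‖z - c‖ ≤ ‖z - s‖ + ‖s - c‖ := norm_sub_le_norm_sub_add_norm_sub z s c
      linarith
    refine h1.trans ?_
    rw [div_le_div_iff₀ (by linarith) hd]
    have h3 := norm_nonneg (z - c)
    have h4 : 2 * M * ‖z - c‖ * d ≤ 2 * M * R * d := by
      apply mul_le_mul_of_nonneg_right _ hd.le
      apply mul_le_mul_of_nonneg_left _ (by positivity)
      linarith
    have h5 : 4 * M * R * (d / 2) ≤ 4 * M * R * (R - ‖z - c‖) := by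
      apply mul_le_mul_of_nonneg_left _ (by positivity)
      linarith
    linarith
  have h1 := norm_deriv_le_of_forall_mem_sphere_norm_le (by positivity) hcl hC
  have h2 : deriv (fun z => l z - l c) s = deriv g s / g s := ((hl s hsb).sub_const _).deriv
  rw [h2] at h1
  refine h1.trans (le_of_eq ?_)
  field_simp
  ring

/-- Block S3a. -/
theorem logDeriv : LogDeriv := by
  refine ⟨48, by norm_num, ?_⟩
  intro q _ χ hχ T σ₀ δ hT hσ hσ1 hδ hδ1 hz s hs1 hs2 hs3
  have hq : (1 : ℝ) ≤ q := by
    have := NeZero.one_le (n := q)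
    exact_mod_cast this
  set R : ℝ := 2 - σ₀ with hR
  set c : ℂ := 2 + (s.im : ℂ) * I with hc
  have hcre : c.re = 2 := by simp [hc]
  have hcim : c.im = s.im := by simp [hc]
  have hR0 : 0 < R := by rw [hR]; linarith
  have hR1 : R ≤ 3 / 2 := by rw [hR]; linarith
  have hball : ∀ z ∈ ball c R, σ₀ < z.re ∧ |z.im| ≤ T + 3 / 2 := by
    intro z hzb
    rw [mem_ball, dist_eq_norm] at hzb
    have h1 := (abs_re_le_norm (z - c)).trans_lt hzb
    have h2 := (abs_im_le_norm (z - c)).trans_lt hzb
    rw [sub_re, hcre, abs_lt] at h1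
    rw [sub_im, hcim] at h2
    constructor
    · rw [hR] at h1
      linarith [h1.1]
    · have h3 : |z.im| ≤ |z.im - s.im| + |s.im| := by
        have := abs_add_le (z.im - s.im) s.im
        simpa using this
      linarith
  have hne : ∀ z ∈ ball c R, χ.LFunction z ≠ 0 := by
    intro z hzb
    obtain ⟨h1, h2⟩ := hball z hzb
    exact hz z h1.le (by linarith)
  set Lq := Real.log (q * (T + 2)) with hLq
  have hL3 : Real.log 3 ≤ Lq := by
    apply Real.log_le_log (by norm_num)
    nlinarith
  have hlog3 : 1 < Real.log 3 := by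
    rw [Real.lt_log_iff_exp_lt (by norm_num)]
    have := Real.exp_one_lt_d9
    linarith
  have hLq0 : 0 < Lq := by linarith
  have hup : ∀ z ∈ ball c R, ‖χ.LFunction z‖ ≤ Real.exp (4 * Lq) * ‖χ.LFunction c‖ := by
    intro z hzb
    obtain ⟨h1, h2⟩ := hball z hzb
    have hzre : 0 < z.re := by linarith
    have h3 := norm_LFunction_le hχ hzre
    have hzn : ‖z‖ ≤ 2 * (2 + T) := by
      rw [mem_ball, dist_eq_norm] at hzb
      have h4 : ‖z‖ ≤ ‖z - c‖ + ‖c‖ := by
        have := norm_add_le (z - c) c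
        simpa using this
      have h5 : ‖c‖ ≤ 2 + T := by
        rw [hc]
        refine (norm_add_le _ _).trans ?_
        rw [norm_mul, norm_I, mul_one, norm_real, Real.norm_eq_abs]
        have : ‖(2 : ℂ)‖ = 2 := by simp
        rw [this]
        linarith
      linarith
    have h6 : q * ‖z‖ / z.re ≤ 4 * (q * (T + 2)) := by
      rw [div_le_iff₀ hzre]
      have h7 : (q : ℝ) * ‖z‖ ≤ q * (2 * (2 + T)) := mul_le_mul_of_nonneg_left hzn (by linarith)
      have h8 : 4 * (q * (T + 2)) * (1 / 2) ≤ 4 * (q * (T + 2)) * z.re := by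
        apply mul_le_mul_of_nonneg_left _ (by positivity)
        linarith
      nlinarith
    have h9 : 1 / 3 ≤ ‖χ.LFunction c‖ := norm_LFunction_two_ge s.im
    have h10 : Real.exp Lq = q * (T + 2) := Real.exp_log (by positivity)
    have h11 : (3 : ℝ) ^ 3 ≤ Real.exp (3 * Lq) := by
      have : Real.exp (3 * Real.log 3) = 3 ^ 3 := by
        rw [show (3 : ℝ) * Real.log 3 = ((3 : ℕ) : ℝ) * Real.log 3 by norm_num, Real.exp_nat_mul,
          Real.exp_log (by norm_num)]
      rw [← this]
      apply Real.exp_le_exp.mpr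
      linarith
    have h12 : Real.exp (4 * Lq) = Real.exp (3 * Lq) * (q * (T + 2)) := by
      rw [← h10, ← Real.exp_add]
      congr 1
      ring
    have hpos : 0 < (q : ℝ) * (T + 2) := by positivity
    calc ‖χ.LFunction z‖ ≤ 4 * (q * (T + 2)) := h3.trans h6
      _ ≤ 27 * (q * (T + 2)) * (1 / 3) := by linarith
      _ ≤ Real.exp (4 * Lq) * ‖χ.LFunction c‖ := by
          rw [h12]
          apply mul_le_mul _ h9 (by norm_num) (by positivity)
          apply mul_le_mul_of_nonneg_right _ hpos.le
          linarith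
  have hsc : ‖s - c‖ + δ ≤ R := by
    have e : s - c = ((s.re - 2 : ℝ) : ℂ) := by
      apply Complex.ext
      · simp [hc]
      · simp [hc]
    rw [e, norm_real, Real.norm_eq_abs, abs_of_nonpos (by linarith), hR]
    linarith
  have hmain := norm_logDeriv_le hR0
    (DirichletCharacter.differentiable_LFunction hχ).differentiableOn hne
    (by positivity : 0 < 4 * Lq) hup hδ hsc
  refine hmain.trans ?_
  apply div_le_div_of_nonneg_right _ (by positivity)
  nlinarith

/-- Block S3b, unconditional. -/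
theorem gaussBound' : GaussBound := gaussBound logDeriv

end Pool.Agent.Work.MP_b0c12c_nt_helper6
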