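import Pool.Agent.Work.MP_b0c12c_nt.Interface2
import Pool.Agent.Work.PNT70.PNT

/-!
Block S4 of the strong version: prime number theorem with a Gaussian weight.
-/

namespace Pool.Agent.Work.MP_b0c12c_nt_helper6.GPnt

open MeasureTheory Filter Finset ArithmeticFunction Chebyshev Topology

theorem psi_approx {η : ℝ} (hη : 0 < η) :
    ∃ C : ℝ, 0 ≤ C ∧ ∀ t : ℝ, 0 ≤ t → |ψ t - t| ≤ η * t + C := by
  have h := Pool.Agent.Work.PNT70.psi_tendsto
  rw [Metric.tendsto_atTop] at h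
  obtain ⟨x0, hx0⟩ := h η hη
  have hm : 0 < max x0 1 := by positivity
  refine ⟨ψ (max x0 1) + max x0 1, add_nonneg (psi_nonneg _) hm.le, ?_⟩
  intro t ht
  by_cases h1 : max x0 1 ≤ t
  · have h2 := hx0 t (le_trans (le_max_left _ _) h1)
    rw [Real.dist_eq] at h2
    have ht0 : 0 < t := lt_of_lt_of_le hm h1
    have h3 : |ψ t - t| = |ψ t / t - 1| * t := by
      have : ψ t - t = (ψ t / t - 1) * t := by field_simp
      rw [this, abs_mul, abs_of_pos ht0]
    rw [h3]
    have := psi_nonneg (max x0 1)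
    nlinarith [mul_le_mul_of_nonneg_right h2.le ht0.le]
  · push Not at h1
    have h2 : ψ t ≤ ψ (max x0 1) := psi_mono h1.le
    have h3 := psi_nonneg t
    have h4 : |ψ t - t| ≤ ψ t + t := by
      rw [abs_le]
      constructor <;> linarith
    nlinarith [mul_nonneg hη.le ht]

theorem subst_le {h : ℝ → ℝ} (hc : Continuous h) (h0 : ∀ u, 0 ≤ h u)
    (hi : Integrable fun u => h u * Real.exp u) {Y b : ℝ} (hY : 0 < Y) (hb : 1 ≤ b) :
    ∫ t in (1:ℝ)..b, h (Real.log (t / Y)) ≤ Y * ∫ u, h u * Real.exp u := by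
  have hb0 : 0 < b := by linarith
  have hab : Real.log (1 / Y) ≤ Real.log (b / Y) := by
    apply Real.log_le_log (by positivity)
    gcongr
  have key := intervalIntegral.integral_comp_mul_deriv' (a := Real.log (1 / Y))
    (b := Real.log (b / Y)) (f := fun u => Y * Real.exp u) (f' := fun u => Y * Real.exp u)
    (g := fun t => h (Real.log (t / Y)))
    (fun u _ => (Real.hasDerivAt_exp u).const_mul Y) (by fun_prop) (by
      rintro _ ⟨u, _, rfl⟩
      apply ContinuousAt.continuousWithinAt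
      apply hc.continuousAt.comp
      apply Real.continuousAt_log _ |>.comp
      · fun_prop
      · positivity)
  rw [Real.exp_log (by positivity), Real.exp_log (by positivity)] at key
  have e1 : Y * (1 / Y) = 1 := by field_simp
  have e2 : Y * (b / Y) = b := by field_simp
  rw [e1, e2] at key
  rw [← key]
  have e3 : ∀ u, ((fun t => h (Real.log (t / Y))) ∘ fun u => Y * Real.exp u) u * (Y * Real.exp u)
      = Y * (h u * Real.exp u) := by
    intro u
    simp only [Function.comp]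
    rw [mul_div_cancel_left₀ _ hY.ne', Real.log_exp]
    ring
  simp_rw [e3]
  rw [intervalIntegral.integral_const_mul]
  apply mul_le_mul_of_nonneg_left _ hY.le
  rw [intervalIntegral.integral_of_le hab]
  exact setIntegral_le_integral hi (Eventually.of_forall fun u => mul_nonneg (h0 u) (Real.exp_pos u).le)

/-- the weight -/
noncomputable def g (τ Y t : ℝ) : ℝ := Real.exp (-(Real.log (t / Y)) ^ 2 / (2 * τ ^ 2))

/-- its derivative -/
noncomputable def g' (τ Y t : ℝ) : ℝ := -(Real.log (t / Y)) / (τ ^ 2 * t) * g τ Y t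

theorem hasDerivAt_g {τ Y t : ℝ} (hτ : 0 < τ) (hY : 0 < Y) (ht : 0 < t) :
    HasDerivAt (g τ Y) (g' τ Y t) t := by
  have h1 : HasDerivAt (fun t => t / Y) (1 / Y) t := (hasDerivAt_id t).div_const Y
  have h2 := h1.log (by positivity)
  have h3 := (((h2.pow 2).neg).div_const (2 * τ ^ 2)).exp
  refine h3.congr_deriv ?_
  unfold g' g
  simp only [Pi.pow_apply, Pi.neg_apply]
  field_simp
  ring

theorem deriv_g {τ Y t : ℝ} (hτ : 0 < τ) (hY : 0 < Y) (ht : 0 < t) :
    deriv (g τ Y) t = g' τ Y t := (hasDerivAt_g hτ hY ht).deriv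

theorem g_pos (τ Y t : ℝ) : 0 < g τ Y t := Real.exp_pos _

theorem g_le_one (τ Y t : ℝ) : g τ Y t ≤ 1 := by
  unfold g
  rw [Real.exp_le_one_iff]
  rw [neg_div]
  have : 0 ≤ (Real.log (t / Y)) ^ 2 / (2 * τ ^ 2) := by positivity
  linarith

theorem mul_g_le {τ Y t : ℝ} (hτ : 0 < τ) (hY : 0 < Y) (ht : 0 < t) :
    t * g τ Y t ≤ Real.exp (τ ^ 2 / 2) * Y := by
  have h1 : t = Y * Real.exp (Real.log (t / Y)) := by
    rw [Real.exp_log (by positivity)]
    field_simp
  unfold g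
  set u := Real.log (t / Y)
  rw [h1]
  have h2 : Y * Real.exp u * Real.exp (-u ^ 2 / (2 * τ ^ 2)) = Real.exp (u + -u ^ 2 / (2 * τ ^ 2)) * Y := by
    rw [Real.exp_add]; ring
  rw [h2]
  apply mul_le_mul_of_nonneg_right _ hY.le
  rw [Real.exp_le_exp]
  have h3 : τ ^ 2 / 2 - (u + -u ^ 2 / (2 * τ ^ 2)) = (u - τ ^ 2) ^ 2 / (2 * τ ^ 2) := by
    field_simp
    ring
  have h4 : 0 ≤ (u - τ ^ 2) ^ 2 / (2 * τ ^ 2) := by positivity
  linarith


theorem gauss_c {τ : ℝ} (hτ : 0 < τ) (c u : ℝ) :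
    Real.exp (-u ^ 2 / (2 * τ ^ 2)) * Real.exp (c * u) =
      Real.exp (c ^ 2 * τ ^ 2 / 2) * Real.exp (-(1 / (2 * τ ^ 2)) * (u - c * τ ^ 2) ^ 2) := by
  rw [← Real.exp_add, ← Real.exp_add]
  congr 1
  field_simp
  ring

theorem integrable_c {τ : ℝ} (hτ : 0 < τ) (c : ℝ) :
    Integrable fun u : ℝ => Real.exp (-u ^ 2 / (2 * τ ^ 2)) * Real.exp (c * u) := by
  simp_rw [gauss_c hτ c]
  exact ((integrable_exp_neg_mul_sq (by positivity)).comp_sub_right _).const_mul _

theorem integral_c {τ : ℝ} (hτ : 0 < τ) :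
    ∫ u : ℝ, Real.exp (-u ^ 2 / (2 * τ ^ 2)) * Real.exp u =
      τ * Real.sqrt (2 * Real.pi) * Real.exp (τ ^ 2 / 2) := by
  have h1 : ∀ u : ℝ, Real.exp (-u ^ 2 / (2 * τ ^ 2)) * Real.exp u =
      Real.exp (τ ^ 2 / 2) * Real.exp (-(1 / (2 * τ ^ 2)) * (u - τ ^ 2) ^ 2) := by
    intro u
    have := gauss_c hτ 1 u
    simpa using this
  simp_rw [h1]
  rw [integral_const_mul, integral_sub_right_eq_self (μ := volume)
    (fun y : ℝ => Real.exp (-(1 / (2 * τ ^ 2)) * y ^ 2)) (τ ^ 2), integral_gaussian]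
  have e1 : Real.sqrt (Real.pi / (1 / (2 * τ ^ 2))) = τ * Real.sqrt (2 * Real.pi) := by
    rw [show Real.pi / (1 / (2 * τ ^ 2)) = τ ^ 2 * (2 * Real.pi) by field_simp,
      Real.sqrt_mul (by positivity), Real.sqrt_sq hτ.le]
  rw [e1]
  ring

/-- auxiliary weights -/
noncomputable def h1 (τ u : ℝ) : ℝ := |u| / τ ^ 2 * Real.exp (-u ^ 2 / (2 * τ ^ 2))

noncomputable def h2 (τ u : ℝ) : ℝ := |u| / τ ^ 2 * Real.exp (-u ^ 2 / (2 * τ ^ 2)) * Real.exp (-u)

theorem abs_le_exp (u : ℝ) : |u| ≤ Real.exp u + Real.exp (-u) := by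
  have h1 := Real.add_one_le_exp u
  have h2 := Real.add_one_le_exp (-u)
  have h3 := Real.exp_pos u
  have h4 := Real.exp_pos (-u)
  rw [abs_le]
  constructor <;> linarith

theorem integrable_abs {τ : ℝ} (hτ : 0 < τ) (c : ℝ) :
    Integrable fun u : ℝ => |u| / τ ^ 2 * Real.exp (-u ^ 2 / (2 * τ ^ 2)) * Real.exp (c * u) := by
  have hi := ((integrable_c hτ (c + 1)).add (integrable_c hτ (c - 1))).const_mul (1 / τ ^ 2)
  refine hi.mono (Continuous.aestronglyMeasurable (by fun_prop)) (Eventually.of_forall fun u => ?_)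
  rw [Real.norm_eq_abs, Real.norm_eq_abs, abs_of_nonneg (by positivity)]
  refine le_trans ?_ (le_abs_self _)
  simp only [Pi.add_apply]
  have h3 := abs_le_exp u
  have e1 : Real.exp ((c + 1) * u) = Real.exp (c * u) * Real.exp u := by
    rw [← Real.exp_add]; ring_nf
  have e2 : Real.exp ((c - 1) * u) = Real.exp (c * u) * Real.exp (-u) := by
    rw [← Real.exp_add]; ring_nf
  rw [e1, e2]
  calc |u| / τ ^ 2 * Real.exp (-u ^ 2 / (2 * τ ^ 2)) * Real.exp (c * u)
      = |u| * (1 / τ ^ 2 * Real.exp (-u ^ 2 / (2 * τ ^ 2)) * Real.exp (c * u)) := by ring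
    _ ≤ (Real.exp u + Real.exp (-u)) *
        (1 / τ ^ 2 * Real.exp (-u ^ 2 / (2 * τ ^ 2)) * Real.exp (c * u)) :=
        mul_le_mul_of_nonneg_right h3 (by positivity)
    _ = _ := by ring

theorem integrable_h1 {τ : ℝ} (hτ : 0 < τ) : Integrable fun u : ℝ => h1 τ u * Real.exp u := by
  have := integrable_abs hτ 1
  simpa [h1] using this

theorem integrable_h2 {τ : ℝ} (hτ : 0 < τ) : Integrable fun u : ℝ => h2 τ u * Real.exp u := by
  have := integrable_abs hτ 0
  refine this.congr (Eventually.of_forall fun u => ?_)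
  simp only [h2, zero_mul, Real.exp_zero, mul_one]
  rw [mul_assoc _ (Real.exp (-u)), ← Real.exp_add]
  simp

theorem abs_g'_mul {τ Y t : ℝ} (_hτ : 0 < τ) (ht : 0 < t) :
    |g' τ Y t| * t = h1 τ (Real.log (t / Y)) := by
  unfold g' h1
  rw [abs_mul, abs_div, abs_neg, abs_of_pos (g_pos τ Y t), abs_of_pos (show 0 < τ ^ 2 * t by positivity)]
  unfold g
  field_simp

theorem abs_g'_eq {τ Y t : ℝ} (_hτ : 0 < τ) (hY : 0 < Y) (ht : 0 < t) :
    |g' τ Y t| = Y⁻¹ * h2 τ (Real.log (t / Y)) := by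
  unfold g' h2
  rw [abs_mul, abs_div, abs_neg, abs_of_pos (g_pos τ Y t), abs_of_pos (show 0 < τ ^ 2 * t by positivity),
    Real.exp_neg, Real.exp_log (by positivity)]
  unfold g
  field_simp

theorem abel {τ Y : ℝ} (hτ : 0 < τ) (hY : 0 < Y) {b : ℝ} (hb : 1 ≤ b) {η C : ℝ} (hη : 0 ≤ η)
    (hC : 0 ≤ C) (hψ : ∀ t : ℝ, 0 ≤ t → |ψ t - t| ≤ η * t + C) :
    ∑ k ∈ Icc 0 ⌊b⌋₊, g τ Y k * Λ k ≤
      (∫ u : ℝ, Real.exp (-u ^ 2 / (2 * τ ^ 2)) * Real.exp u) * Y +
      η * (Real.exp (τ ^ 2 / 2) + ∫ u, h1 τ u * Real.exp u) * Y +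
      (1 + C * (1 + ∫ u, h2 τ u * Real.exp u)) := by
  have hb0 : 0 < b := by linarith
  have hpos : ∀ t ∈ Set.Icc (1:ℝ) b, 0 < t := fun t ht => lt_of_lt_of_le one_pos ht.1
  have hcg : ContinuousOn (g τ Y) (Set.Icc 1 b) := fun t ht =>
    (hasDerivAt_g hτ hY (hpos t ht)).continuousAt.continuousWithinAt
  have hcg' : ContinuousOn (g' τ Y) (Set.Icc 1 b) := by
    unfold g'
    apply ContinuousOn.mul _ hcg
    apply ContinuousOn.div
    · apply ContinuousOn.neg
      apply ContinuousOn.log (by fun_prop)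
      intro t ht
      have := hpos t ht
      positivity
    · fun_prop
    · intro t ht
      have := hpos t ht
      positivity
  have hdi : IntegrableOn (deriv (g τ Y)) (Set.Icc 1 b) := by
    apply IntegrableOn.congr_fun (hcg'.integrableOn_Icc) _ measurableSet_Icc
    intro t ht
    exact (deriv_g hτ hY (hpos t ht)).symm
  have key := sum_mul_eq_sub_integral_mul₀ (f := g τ Y) (fun n => Λ n) (by simp) b
    (fun t ht => (hasDerivAt_g hτ hY (hpos t ht)).differentiableAt) hdi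
  simp_rw [← psi_eq_sum_Icc] at key
  rw [key]
  have hint := (integrableOn_mul_sum_Icc (m := 0) (fun n => Λ n) zero_le_one hdi)
  simp_rw [← psi_eq_sum_Icc] at hint
  set R : ℝ → ℝ := fun t => -(g' τ Y t * t) + (η * (|g' τ Y t| * t) + C * |g' τ Y t|) with hR
  have hcR : ContinuousOn R (Set.Icc 1 b) := by
    rw [hR]
    fun_prop
  have s1 : -∫ t in Set.Ioc 1 b, deriv (g τ Y) t * ψ t ≤ ∫ t in Set.Ioc 1 b, R t := by
    rw [← integral_neg]
    apply setIntegral_mono_on
    · exact (hint.mono_set Set.Ioc_subset_Icc_self).neg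
    · exact hcR.integrableOn_Icc.mono_set Set.Ioc_subset_Icc_self
    · exact measurableSet_Ioc
    · intro t ht
      have ht0 : 0 < t := by linarith [ht.1]
      rw [deriv_g hτ hY ht0]
      have h3 := hψ t ht0.le
      have h4 : |g' τ Y t * (ψ t - t)| ≤ |g' τ Y t| * (η * t + C) := by
        rw [abs_mul]
        exact mul_le_mul_of_nonneg_left h3 (abs_nonneg _)
      have h5 := neg_abs_le (g' τ Y t * (ψ t - t))
      simp only [hR]
      nlinarith
  have s2 : ∫ t in Set.Ioc 1 b, R t = ∫ t in (1:ℝ)..b, R t :=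
    (intervalIntegral.integral_of_le hb).symm
  have ii : ∀ {f : ℝ → ℝ}, ContinuousOn f (Set.Icc 1 b) → IntervalIntegrable f volume 1 b := by
    intro f hf
    exact hf.intervalIntegrable_of_Icc hb
  have i1 : IntervalIntegrable (fun t => -(g' τ Y t * t)) volume 1 b := ii (by fun_prop)
  have i2 : IntervalIntegrable (fun t => η * (|g' τ Y t| * t)) volume 1 b := ii (by fun_prop)
  have i3 : IntervalIntegrable (fun t => C * |g' τ Y t|) volume 1 b := ii (by fun_prop)
  have s3 : ∫ t in (1:ℝ)..b, R t = (∫ t in (1:ℝ)..b, -(g' τ Y t * t)) +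
      (η * (∫ t in (1:ℝ)..b, |g' τ Y t| * t) + C * ∫ t in (1:ℝ)..b, |g' τ Y t|) := by
    rw [hR, intervalIntegral.integral_add i1 (i2.add i3), intervalIntegral.integral_add i2 i3,
      intervalIntegral.integral_const_mul, intervalIntegral.integral_const_mul]
  have s4 : (∫ t in (1:ℝ)..b, -(g' τ Y t * t)) =
      -(b * g τ Y b - 1 * g τ Y 1) + ∫ t in (1:ℝ)..b, g τ Y t := by
    have hF : ∀ t ∈ Set.uIcc (1:ℝ) b, HasDerivAt (fun t => t * g τ Y t)
        (g τ Y t + g' τ Y t * t) t := by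
      intro t ht
      rw [Set.uIcc_of_le hb] at ht
      refine ((hasDerivAt_id t).mul (hasDerivAt_g hτ hY (hpos t ht))).congr_deriv ?_
      simp only [id]
      ring
    have := intervalIntegral.integral_eq_sub_of_hasDerivAt hF (ii (by fun_prop))
    rw [intervalIntegral.integral_add (ii hcg) (ii (by fun_prop))] at this
    rw [intervalIntegral.integral_neg, ← this]
    ring
  have s5 : ∫ t in (1:ℝ)..b, g τ Y t ≤
      Y * ∫ u : ℝ, Real.exp (-u ^ 2 / (2 * τ ^ 2)) * Real.exp u := by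
    apply subst_le (h := fun u => Real.exp (-u ^ 2 / (2 * τ ^ 2))) (by fun_prop)
      (fun u => (Real.exp_pos _).le) _ hY hb
    simpa using integrable_c hτ 1
  have s6 : ∫ t in (1:ℝ)..b, |g' τ Y t| * t ≤ Y * ∫ u : ℝ, h1 τ u * Real.exp u := by
    have e : ∫ t in (1:ℝ)..b, |g' τ Y t| * t = ∫ t in (1:ℝ)..b, h1 τ (Real.log (t / Y)) := by
      apply intervalIntegral.integral_congr
      intro t ht
      rw [Set.uIcc_of_le hb] at ht
      exact abs_g'_mul hτ (hpos t ht)
    rw [e]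
    apply subst_le (h := h1 τ) (by unfold h1; fun_prop) (fun u => by unfold h1; positivity)
      (integrable_h1 hτ) hY hb
  have s7 : ∫ t in (1:ℝ)..b, |g' τ Y t| ≤ ∫ u : ℝ, h2 τ u * Real.exp u := by
    have e : ∫ t in (1:ℝ)..b, |g' τ Y t| = Y⁻¹ * ∫ t in (1:ℝ)..b, h2 τ (Real.log (t / Y)) := by
      rw [← intervalIntegral.integral_const_mul]
      apply intervalIntegral.integral_congr
      intro t ht
      rw [Set.uIcc_of_le hb] at ht
      exact abs_g'_eq hτ hY (hpos t ht)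
    rw [e]
    have := subst_le (h := h2 τ) (by unfold h2; fun_prop) (fun u => by unfold h2; positivity)
      (integrable_h2 hτ) hY hb
    calc Y⁻¹ * ∫ t in (1:ℝ)..b, h2 τ (Real.log (t / Y)) ≤ Y⁻¹ * (Y * ∫ u : ℝ, h2 τ u * Real.exp u) :=
          mul_le_mul_of_nonneg_left this (by positivity)
      _ = _ := by field_simp
  have s8 := hψ b hb0.le
  have s9 : ψ b ≤ b + (η * b + C) := by linarith [le_abs_self (ψ b - b)]
  have s10 := mul_g_le hτ hY hb0
  have s11 := g_le_one τ Y b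
  have s12 := g_le_one τ Y 1
  have s13 : g τ Y b * ψ b ≤ g τ Y b * (b + (η * b + C)) :=
    mul_le_mul_of_nonneg_left s9 (g_pos _ _ _).le
  have s14 : η * (b * g τ Y b) ≤ η * (Real.exp (τ ^ 2 / 2) * Y) := mul_le_mul_of_nonneg_left s10 hη
  have s15 : g τ Y b * C ≤ 1 * C := mul_le_mul_of_nonneg_right s11 hC
  have s16 := mul_le_mul_of_nonneg_left s6 hη
  have s17 := mul_le_mul_of_nonneg_left s7 hC
  rw [s2, s3, s4] at s1
  nlinarith

/-- Block S4. -/
theorem gaussPnt : Pool.Agent.Work.MP_b0c12c_nt.Itf2.GaussPnt := by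
  intro τ hτ ε hε
  have hA : 0 < τ * Real.sqrt (2 * Real.pi) * Real.exp (τ ^ 2 / 2) := by positivity
  set A := τ * Real.sqrt (2 * Real.pi) * Real.exp (τ ^ 2 / 2) with hAdef
  have hB : 0 < Real.exp (τ ^ 2 / 2) + ∫ u, h1 τ u * Real.exp u := by
    have : 0 ≤ ∫ u, h1 τ u * Real.exp u := integral_nonneg fun u => by
      simp only [Pi.zero_apply]
      unfold h1
      positivity
    positivity
  set B := Real.exp (τ ^ 2 / 2) + ∫ u, h1 τ u * Real.exp u with hBdef
  have hη : 0 < ε * A / (2 * B) := by positivity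
  obtain ⟨C, hC, hψ⟩ := psi_approx hη
  set D := 1 + C * (1 + ∫ u, h2 τ u * Real.exp u) with hD
  refine ⟨max 1 (2 * D / (ε * A)), fun Y hY => ?_⟩
  have hY1 : 1 ≤ Y := (le_max_left _ _).trans hY
  have hY0 : 0 < Y := by linarith
  have hYD : D ≤ ε * A / 2 * Y := by
    have := (le_max_right _ _).trans hY
    rw [div_le_iff₀ (by positivity)] at this
    linarith
  have hnn : ∀ n : ℕ, 0 ≤ Λ n * Real.exp (-(Real.log (n / Y)) ^ 2 / (2 * τ ^ 2)) :=
    fun n => mul_nonneg vonMangoldt_nonneg (Real.exp_pos _).le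
  have hb : ∀ n : ℕ, ∑ i ∈ Finset.range n, Λ i * Real.exp (-(Real.log (i / Y)) ^ 2 / (2 * τ ^ 2)) ≤
      (1 + ε) * A * Y := by
    intro n
    have h3 := abel hτ hY0 (b := n + 1) (by simp) hη.le hC hψ
    rw [integral_c hτ] at h3
    have h4 : ⌊((n : ℝ) + 1)⌋₊ = n + 1 := by
      have := Nat.floor_natCast (R := ℝ) (n + 1)
      push_cast at this
      exact this
    rw [h4] at h3
    have h5 : ε * A / (2 * B) * B * Y = ε * A / 2 * Y := by field_simp
    have h6 : ∑ i ∈ Finset.range n, Λ i * Real.exp (-(Real.log (i / Y)) ^ 2 / (2 * τ ^ 2)) ≤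
        ∑ k ∈ Icc 0 (n + 1), g τ Y k * Λ k := by
      have h7 : ∑ k ∈ Icc 0 (n + 1), g τ Y k * Λ k =
          ∑ k ∈ Icc 0 (n + 1), Λ k * Real.exp (-(Real.log (k / Y)) ^ 2 / (2 * τ ^ 2)) :=
        Finset.sum_congr rfl fun k _ => mul_comm _ _
      rw [h7]
      apply Finset.sum_le_sum_of_subset_of_nonneg
      · intro k hk
        rw [Finset.mem_range] at hk
        rw [Finset.mem_Icc]
        omega
      · intro k _ _
        exact hnn k
    rw [← hAdef, ← hBdef, ← hD, h5] at h3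
    linarith
  exact ⟨summable_of_sum_range_le hnn hb, Real.tsum_le_of_sum_range_le hnn hb⟩

end Pool.Agent.Work.MP_b0c12c_nt_helper6.GPnt
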