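import Mathlib

/-!
# The bound `|L(s, χ)| ≤ q |s| / Re s` for `Re s > 0` and nonprincipal `χ` mod `q`
-/

set_option autoImplicit false

open Complex MeasureTheory Filter Topology Set

namespace Pool.Agent.Work.MP_b0c12c_nt_helper6

variable {q : ℕ} [NeZero q] {χ : DirichletCharacter ℂ q}

theorem sum_range_zmod (f : ZMod q → ℂ) : ∑ k ∈ Finset.range q, f (k : ZMod q) = ∑ x, f x := by
  refine Finset.sum_nbij' (fun k => (k : ZMod q)) (fun x => x.val) ?_ ?_ ?_ ?_ ?_
  · intro k _; exact Finset.mem_univ _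
  · intro x _; exact Finset.mem_range.mpr (ZMod.val_lt x)
  · intro k hk; exact ZMod.val_natCast_of_lt (Finset.mem_range.mp hk)
  · intro x _; exact ZMod.natCast_zmod_val x
  · intro k _; rfl

theorem sum_period (hχ : χ ≠ 1) (a : ℕ) : ∑ k ∈ Finset.range q, χ ((a + k : ℕ) : ZMod q) = 0 := by
  have h1 := sum_range_zmod (fun x : ZMod q => χ ((a : ZMod q) + x))
  have h2 : ∑ x : ZMod q, χ ((a : ZMod q) + x) = ∑ x, χ x :=
    Equiv.sum_comp (Equiv.addLeft (a : ZMod q)) (fun x => χ x)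
  rw [h2, MulChar.sum_eq_zero_of_ne_one hχ] at h1
  rw [← h1]
  exact Finset.sum_congr rfl fun k _ => by push_cast; rfl

theorem norm_sum_range_le (hχ : χ ≠ 1) (n : ℕ) :
    ‖∑ k ∈ Finset.range n, χ ((k + 1 : ℕ) : ZMod q)‖ ≤ q := by
  have hq : 0 < q := Nat.pos_of_ne_zero (NeZero.ne q)
  induction n using Nat.strong_induction_on with
  | _ n ih =>
    rcases Nat.lt_or_ge n q with h | h
    · refine (norm_sum_le _ _).trans ?_
      calc ∑ k ∈ Finset.range n, ‖χ ((k + 1 : ℕ) : ZMod q)‖ ≤ ∑ k ∈ Finset.range n, (1 : ℝ) :=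
            Finset.sum_le_sum fun k _ => DirichletCharacter.norm_le_one χ _
        _ = n := by simp
        _ ≤ q := by exact_mod_cast h.le
    · obtain ⟨m, rfl⟩ : ∃ m, n = m + q := ⟨n - q, by omega⟩
      rw [Finset.sum_range_add]
      have h1 : ∑ x ∈ Finset.range q, χ ((m + x + 1 : ℕ) : ZMod q) = 0 := by
        rw [← sum_period hχ (m + 1)]
        exact Finset.sum_congr rfl fun k _ => by congr 2; omega
      rw [h1, add_zero]
      exact ih m (by omega)

/-- the summatory function -/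
noncomputable def Sf (χ : DirichletCharacter ℂ q) (t : ℝ) : ℂ :=
  ∑ k ∈ Finset.Icc 1 ⌊t⌋₊, χ (k : ZMod q)

omit [NeZero q] in
theorem Icc_eq (n : ℕ) : ∑ k ∈ Finset.Icc 1 n, χ (k : ZMod q) =
    ∑ k ∈ Finset.range n, χ ((k + 1 : ℕ) : ZMod q) := by
  rw [Finset.range_eq_Ico, Finset.sum_Ico_add' (fun k : ℕ => χ (k : ZMod q)) 0 n 1]
  rfl

theorem norm_Icc_le (hχ : χ ≠ 1) (n : ℕ) : ‖∑ k ∈ Finset.Icc 1 n, χ (k : ZMod q)‖ ≤ q := by
  rw [Icc_eq]
  exact norm_sum_range_le hχ n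

theorem norm_Sf_le (hχ : χ ≠ 1) (t : ℝ) : ‖Sf χ t‖ ≤ q := norm_Icc_le hχ _

omit [NeZero q] in
theorem Sf_zero {t : ℝ} (ht : t < 1) : Sf χ t = 0 := by
  unfold Sf
  have : ⌊t⌋₊ = 0 := Nat.floor_eq_zero.mpr ht
  rw [this]
  simp

omit [NeZero q] in
theorem measurable_Sf : Measurable (Sf χ) := by
  have h : Measurable (fun n : ℕ => ∑ k ∈ Finset.Icc 1 n, χ (k : ZMod q)) := measurable_from_nat
  exact h.comp Nat.measurable_floor

omit [NeZero q] in
theorem mellin_Sf (s : ℂ) : mellin (Sf χ) (-s) =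
    ∫ t in Ioi (1 : ℝ), Sf χ t * (t : ℂ) ^ (-(s + 1)) := by
  unfold mellin
  rw [← integral_Ici_eq_integral_Ioi (x := (1 : ℝ))]
  rw [setIntegral_eq_of_subset_of_forall_sdiff_eq_zero (s := Ici (1 : ℝ)) (t := Ioi (0 : ℝ))
    measurableSet_Ioi (fun t (ht : (1 : ℝ) ≤ t) => (lt_of_lt_of_le one_pos ht : (0 : ℝ) < t))]
  · refine setIntegral_congr_fun measurableSet_Ici fun t _ => ?_
    simp only [smul_eq_mul]
    rw [mul_comm, show -s - 1 = -(s + 1) by ring]
  · rintro t ⟨_, ht2⟩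
    rw [Set.mem_Ici, not_le] at ht2
    rw [Sf_zero ht2, smul_zero]

theorem differentiableAt_mellin_Sf (hχ : χ ≠ 1) {w : ℂ} (hw : w.re < 0) :
    DifferentiableAt ℂ (mellin (Sf χ)) w := by
  refine mellin_differentiableAt_of_isBigO_rpow (a := 0) (b := w.re - 1) ?_ ?_ hw ?_ (by linarith)
  · refine LocallyIntegrable.locallyIntegrableOn ?_ _
    refine (locallyIntegrable_const (q : ℝ)).mono (measurable_Sf.aestronglyMeasurable)
      (Eventually.of_forall fun t => ?_)
    refine (norm_Sf_le hχ t).trans ?_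
    simp
  · refine Asymptotics.IsBigO.of_bound q (Eventually.of_forall fun t => ?_)
    simpa using norm_Sf_le hχ t
  · refine (Asymptotics.isBigO_zero (E' := ℂ) _ _).congr' ?_ EventuallyEq.rfl
    have : ∀ᶠ t : ℝ in 𝓝[>] 0, t < 1 :=
      nhdsWithin_le_nhds (gt_mem_nhds one_pos)
    filter_upwards [this] with t ht
    exact (Sf_zero ht).symm

theorem LFunction_eq_mellin (hχ : χ ≠ 1) {s : ℂ} (hs : 0 < s.re) :
    χ.LFunction s = s * mellin (Sf χ) (-s) := by
  set U : Set ℂ := {s | 0 < s.re} with hU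
  have hUo : IsOpen U := isOpen_lt continuous_const Complex.continuous_re
  have hUc : IsPreconnected U := (convex_halfSpace_re_gt 0).isPreconnected
  have h1 : AnalyticOnNhd ℂ χ.LFunction U := fun z _ =>
    (DirichletCharacter.differentiable_LFunction hχ).analyticAt z
  have h2 : AnalyticOnNhd ℂ (fun s => s * mellin (Sf χ) (-s)) U := by
    refine DifferentiableOn.analyticOnNhd ?_ hUo
    intro z hz
    have hz' : (-z).re < 0 := by
      have : 0 < z.re := hz
      simpa using this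
    have h3 := differentiableAt_mellin_Sf hχ hz'
    have h4 : DifferentiableAt ℂ (fun s => mellin (Sf χ) (-s)) z :=
      h3.comp z differentiableAt_id.neg
    exact (differentiableAt_id.mul h4).differentiableWithinAt
  have h2U : (2 : ℂ) ∈ U := by simp [hU]
  refine h1.eqOn_of_preconnected_of_eventuallyEq h2 hUc h2U ?_ hs
  have hev : ∀ᶠ z : ℂ in 𝓝 2, 1 < z.re :=
    (isOpen_lt continuous_const Complex.continuous_re).mem_nhds (by simp)
  filter_upwards [hev] with z hz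
  rw [DirichletCharacter.LFunction_eq_LSeries χ hz, mellin_Sf]
  refine LSeries_eq_mul_integral _ le_rfl (by linarith)
    (DirichletCharacter.LSeriesSummable_of_one_lt_re χ hz) ?_
  refine Asymptotics.IsBigO.of_bound q (Eventually.of_forall fun n => ?_)
  simpa using norm_Icc_le hχ n

/-- The trivial bound of `L(s, χ)`. -/
theorem norm_LFunction_le (hχ : χ ≠ 1) {s : ℂ} (hs : 0 < s.re) :
    ‖χ.LFunction s‖ ≤ q * ‖s‖ / s.re := by
  rw [LFunction_eq_mellin hχ hs, mellin_Sf, norm_mul]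
  have hi : IntegrableOn (fun t : ℝ => (q : ℝ) * t ^ (-(s.re + 1))) (Ioi 1) :=
    (integrableOn_Ioi_rpow_of_lt (by linarith) one_pos).const_mul _
  have h1 : ‖∫ t in Ioi (1 : ℝ), Sf χ t * (t : ℂ) ^ (-(s + 1))‖ ≤
      ∫ t in Ioi (1 : ℝ), (q : ℝ) * t ^ (-(s.re + 1)) := by
    refine norm_integral_le_of_norm_le hi ?_
    refine (ae_restrict_iff' measurableSet_Ioi).mpr (Eventually.of_forall fun t ht => ?_)
    have ht0 : (0 : ℝ) < t := lt_trans one_pos ht
    rw [norm_mul, norm_cpow_eq_rpow_re_of_pos ht0]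
    have e : (-(s + 1)).re = -(s.re + 1) := by simp
    rw [e]
    exact mul_le_mul_of_nonneg_right (norm_Sf_le hχ t) (Real.rpow_nonneg ht0.le _)
  rw [integral_const_mul, integral_Ioi_rpow_of_lt (by linarith) one_pos, Real.one_rpow] at h1
  have e2 : (q : ℝ) * (-1 / (-(s.re + 1) + 1)) = q / s.re := by
    have : -(s.re + 1) + 1 = -s.re := by ring
    rw [this]
    field_simp
  rw [e2] at h1
  calc ‖s‖ * ‖∫ t in Ioi (1 : ℝ), Sf χ t * (t : ℂ) ^ (-(s + 1))‖ ≤ ‖s‖ * (q / s.re) :=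
        mul_le_mul_of_nonneg_left h1 (norm_nonneg _)
    _ = q * ‖s‖ / s.re := by ring

/-- Lower bound on the line `Re s = 2`. -/
theorem norm_LFunction_two_ge (t : ℝ) : 1 / 3 ≤ ‖χ.LFunction (2 + t * I)‖ := by
  have hre : (2 + t * I : ℂ).re = 2 := by simp
  rw [DirichletCharacter.LFunction_eq_LSeries χ (by rw [hre]; norm_num)]
  set s : ℂ := 2 + t * I with hs
  have hsum : LSeriesSummable (fun n : ℕ => χ n) s :=
    DirichletCharacter.LSeriesSummable_of_one_lt_re χ (by rw [hre]; norm_num)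
  have h1 : LSeries (fun n : ℕ => χ n) s = 1 + ∑' n : ℕ, LSeries.term (fun n : ℕ => χ n) s (n + 2) := by
    unfold LSeries
    rw [← hsum.sum_add_tsum_nat_add 2]
    congr 1
    rw [Finset.sum_range_succ, Finset.sum_range_one, LSeries.term_zero, LSeries.term_of_ne_zero one_ne_zero]
    simp
  have hb : ∀ n : ℕ, ‖LSeries.term (fun n : ℕ => χ n) s (n + 2)‖ ≤ 1 / ((n + 2 : ℕ) : ℝ) ^ 2 := by
    intro n
    rw [LSeries.term_of_ne_zero (by omega), norm_div]
    have h2 : ‖((n + 2 : ℕ) : ℂ) ^ s‖ = ((n + 2 : ℕ) : ℝ) ^ 2 := by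
      rw [← Complex.ofReal_natCast, norm_cpow_eq_rpow_re_of_pos (by positivity), hre]
      exact Real.rpow_two _
    rw [h2]
    exact div_le_div_of_nonneg_right (DirichletCharacter.norm_le_one χ _) (by positivity)
  have hz := hasSum_zeta_two
  have hz2 : ∑' n : ℕ, 1 / ((n + 2 : ℕ) : ℝ) ^ 2 = Real.pi ^ 2 / 6 - 1 := by
    have h3 := hz.summable.sum_add_tsum_nat_add 2
    rw [hz.tsum_eq, Finset.sum_range_succ, Finset.sum_range_one] at h3
    norm_num at h3
    rw [← h3]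
    push_cast
    norm_num
  have hzs : Summable fun n : ℕ => 1 / ((n + 2 : ℕ) : ℝ) ^ 2 :=
    (summable_nat_add_iff (f := fun n : ℕ => 1 / (n : ℝ) ^ 2) 2).mpr hz.summable
  have h4 := tsum_of_norm_bounded hzs.hasSum hb
  rw [hz2] at h4
  have h5 : ‖(1 : ℂ)‖ - ‖∑' n : ℕ, LSeries.term (fun n : ℕ => χ n) s (n + 2)‖ ≤
      ‖1 + ∑' n : ℕ, LSeries.term (fun n : ℕ => χ n) s (n + 2)‖ := by
    have := norm_sub_norm_le (1 : ℂ) (-∑' n : ℕ, LSeries.term (fun n : ℕ => χ n) s (n + 2))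
    rwa [norm_neg, sub_neg_eq_add] at this
  rw [h1]
  rw [norm_one] at h5
  have h6 : Real.pi ^ 2 < 10 := by
    have := Real.pi_lt_d2
    have h0 := Real.pi_pos
    nlinarith
  linarith

end Pool.Agent.Work.MP_b0c12c_nt_helper6
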